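import Pool.Agent.Helper706_NS.Defs4

/-!
Definitions for the perturbations with axisymmetric self-similar solutions without swirl.
-/

set_option autoImplicit false

open Set Filter Topology MeasureTheory
open scoped ComplexConjugate ContDiff

namespace H706N

/-- `i k × a / |k|` (the Fourier multiplier of `(-Δ)^(-1/2) curl`). -/
noncomputable def jk (k : E) (a : W) : W := ((‖k‖⁻¹ : ℝ) : ℂ) • cu k a

/-- The helical symbols, conjugated with `(-Δ)^(-1/2) curl`. -/
noncomputable def hlj (P : ℝ → ℝ → ℝ → ℝ) (η : ℝ) (n : ℕ) (p q : E) (a b : W) : W :=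
  jk (p + q) (hls P η n p q (jk p a) (jk q b))

/-- The reflection in the plane spanned by the first and the third axis. -/
noncomputable def mz (k : E) : E := !₂[k 0, -k 1, k 2]

/-- The reflection in the plane spanned by the first and the third axis, for complex vectors. -/
noncomputable def mzW (c : W) : W := !₂[c 0, -c 1, c 2]

/-- The Fourier transform of `x ↦ S v (S x)`, `S` the reflection in the plane spanned by the first and
the third axis. -/
noncomputable def mir (g : E → W) (k : E) : W := mzW (g (mz k))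

/-- Symbols which are homogeneous of degree one and invariant under the rotations about the third axis
and under the reflections in the planes which contain the third axis. -/
structure InvA (M : E → E → W → W → W) : Prop where
  hom : ∀ (r : ℝ), 0 < r → ∀ p q a b, M (r • p) (r • q) a b = r • M p q a b
  rot : ∀ θ p q a b, M (rz θ p) (rz θ q) (rzW θ a) (rzW θ b) = rzW θ (M p q a b)
  mir : ∀ p q a b, M (mz p) (mz q) (mzW a) (mzW b) = mzW (M p q a b)

/-- The circulation `r v_θ = x₀ v₁ - x₁ v₀`. -/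
def circ (v : E → E) (x : E) : ℝ := x 0 * v x 1 - x 1 * v x 0

/-- Axisymmetric vector fields: `v (R x) = R v(x)` for all rotations `R` about the third axis. -/
def Axi (v : E → E) : Prop := ∀ θ x, v (rz θ x) = rz θ (v x)

/-- Axisymmetric vector fields without swirl. -/
def SwirlFree (v : E → E) : Prop := Axi v ∧ ∀ x, circ v x = 0

/-- Axisymmetric vector fields with zero radial and zero axial component. -/
def PureSwirl (v : E → E) : Prop := Axi v ∧ ∀ x, x 0 * v x 0 + x 1 * v x 1 = 0 ∧ v x 2 = 0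

/-- Sequences of bilinear operators `op (M i)` with the symbols `M i`, which are compatible with the
structure of the Navier-Stokes equations and tend to zero in all critical norms. The solutions of the
Navier-Stokes equations with the additional term `op (M i) (u, u)` are classical solutions, and they
remain axisymmetric if they are axisymmetric at the time `0`. -/
structure Pert (M : ℕ → E → E → W → W → W) : Prop where
  sym : ∀ i, Sym (M i) ∧ ∃ C, Bdd C (M i)
  supp : ∀ (i : ℕ) p q a b, (p ∉ band (1 / (i + 2)) ∧ q ∉ band (1 / (i + 2))) ∨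
    (p ∉ band (1 / (i + 2)) ∧ p + q ∉ band (1 / (i + 2))) ∨
    (q ∉ band (1 / (i + 2)) ∧ p + q ∉ band (1 / (i + 2))) → M i p q a b = 0
  admis : ∀ i g h, Adm g → Adm h → Adm (op (M i) g h)
  energy : ∀ i g h, Adm g → Adm h → pr (op (M i) g h) h = 0
  helicity : ∀ i g, Adm g → pr (op (M i) g g) (crl g) = 0
  transl : ∀ i g h a, op (M i) (tr a g) (tr a h) = tr a (op (M i) g h)
  dilat : ∀ i g h (r : ℝ), 0 < r → ∀ k, op (M i) (dil r g) (dil r h) k = op (M i) g h (r⁻¹ • k)
  rotat : ∀ i g h θ, op (M i) (rot θ g) (rot θ h) = rot θ (op (M i) g h)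
  small : ∀ α β γ δ : ℝ, α + β + γ = 5 / 2 → -(3 / 2) < α → α < 3 / 2 → β < 5 / 2 → γ < 5 / 2 →
    0 < δ → ∃ i₀ : ℕ, ∀ i ≥ i₀, ∀ f g h, Adm f → Adm g → Adm h →
      |pr (op (M i) f g) h| ≤ δ * nrm α f * nrm β g * nrm γ h
  cls : ∀ i ν T u, Sol ν (op (M i)) T u →
    ∃ p, Cls ν T (fun t => vel (u t)) p fun t => vel (op (M i) (u t) (u t))
  axi : ∀ i ν T u, 0 ≤ ν → Sol ν (op (M i)) T u → (∀ θ, rot θ (u 0) = u 0) →
    ∀ t ∈ Ico 0 T, Axi (vel (u t))

/-- Self-similar blow-up at the time `T`, with finite energy and constant `L³` norm; the derivatives of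
all orders of the initial velocity are `O(|x|^(-N))`; the solution is unique and maximal. -/
structure Blow (N : ℕ) (ν : ℝ) (Bp : (E → W) → (E → W) → E → W) (T : ℝ) (u : ℝ → E → W) : Prop where
  pos : 0 < T
  sol : Sol ν Bp T u
  ne : ∃ x, vel (u 0) x ≠ 0
  dec : ∀ r : ℕ, ∃ C, ∀ x, (1 + ‖x‖) ^ N * ‖iteratedFDeriv ℝ r (vel (u 0)) x‖ ≤ C
  two : Integrable fun x => ‖vel (u 0) x‖ ^ 2
  three : Integrable fun x => ‖vel (u 0) x‖ ^ 3
  form : ∀ t ∈ Ico 0 T, ∀ x, vel (u t) x
    = (Real.sqrt (1 - t / T))⁻¹ • vel (u 0) ((Real.sqrt (1 - t / T))⁻¹ • x)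
  const : ∀ t ∈ Ico 0 T, ∫ x, ‖vel (u t) x‖ ^ 3 = ∫ x, ‖vel (u 0) x‖ ^ 3
  typeI : ∃ C, ∀ t ∈ Ico 0 T, ∀ x, ‖x‖ * ‖vel (u t) x‖ ≤ C
  max : ∀ T' w, Sol ν Bp T' w → w 0 = u 0 → T' ≤ T ∧ ∀ t ∈ Ico 0 T', vel (w t) = vel (u t)

/-- The solution of the heat equation with the initial value `s` (in Fourier variables). -/
noncomputable def heat (ν t : ℝ) (s : E → W) (k : E) : W := Real.exp (-(ν * ‖k‖ ^ 2 * t)) • s k

/-- Fourier transforms supported on the frequencies with `η |k| < |k₃| ≤ η' |k|`. -/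
def Between (η' η : ℝ) (s : E → W) : Prop := ∀ k, s k ≠ 0 → k ∈ band η' ∧ k ∉ band η

/-- The Fourier transform of the profile. -/
noncomputable def qrn (n : ℕ) (η : ℝ) (k : E) : W := jk k (prn n η k)

end H706N
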