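import Pool.Agent.Helper706_AX.Defs
import Pool.Agent.Helper706_NS.HV1
import Pool.Agent.Helper706_NS.HV2
import Pool.Agent.Helper706_NS.H4
import Pool.Agent.Helper706_NS.H6

set_option autoImplicit false

open Set Filter Topology MeasureTheory
open scoped ComplexConjugate ContDiff

namespace H706N

theorem cu_add (k : E) (a b : W) : cu k (a + b) = cu k a + cu k b := by
  unfold cu
  rw [JHV2.hv2_crw_add, smul_add]

theorem cu_csmul (k : E) (c : ℂ) (a : W) : cu k (c • a) = c • cu k a := by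
  unfold cu
  rw [JHV2.hv2_crw_smul, smul_comm]

theorem jk_add (k : E) (a b : W) : jk k (a + b) = jk k a + jk k b := by
  unfold jk
  rw [cu_add, smul_add]

theorem jk_csmul (k : E) (c : ℂ) (a : W) : jk k (c • a) = c • jk k a := by
  unfold jk
  rw [cu_csmul, smul_comm]

theorem jk_rsmul (k : E) (c : ℝ) (a : W) : jk k (c • a) = c • jk k a := by
  have h : ∀ b : W, c • b = (c : ℂ) • b := fun b => by
    ext j
    simp
  rw [h, h, jk_csmul]

/-- `jk k` as a continuous linear map. -/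
noncomputable def jkL (k : E) : W →L[ℂ] W :=
  LinearMap.toContinuousLinearMap
    { toFun := jk k
      map_add' := jk_add k
      map_smul' := jk_csmul k }

theorem jkL_apply (k : E) (a : W) : jkL k a = jk k a := rfl

theorem kd_jk (k : E) (a : W) : kd k (jk k a) = 0 := by
  unfold jk
  rw [JHV2.hv2_kd_smul, kd_cu, mul_zero]

theorem norm_crw (k : E) (a : W) : ‖crw (toW k) a‖ ≤ ‖k‖ * ‖a‖ := by
  have e1 : ‖crw (toW k) a‖ ^ 2 = ‖crw (toW k) a 0‖ ^ 2 + ‖crw (toW k) a 1‖ ^ 2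
      + ‖crw (toW k) a 2‖ ^ 2 := by
    rw [EuclideanSpace.norm_sq_eq, Fin.sum_univ_three]
  have e2 : ‖a‖ ^ 2 = ‖a 0‖ ^ 2 + ‖a 1‖ ^ 2 + ‖a 2‖ ^ 2 := by
    rw [EuclideanSpace.norm_sq_eq, Fin.sum_univ_three]
  have e3 := JHV2.hv2_norm_sq k
  have h : ‖crw (toW k) a‖ ^ 2 ≤ (‖k‖ * ‖a‖) ^ 2 := by
    rw [mul_pow, e1, e2, e3]
    simp only [JHV2.hv2_crw0, JHV2.hv2_crw1, JHV2.hv2_crw2, JHV2.hv2_toW, ← Complex.normSq_eq_norm_sq,
      Complex.normSq_apply, Complex.sub_re, Complex.sub_im, Complex.mul_re, Complex.mul_im,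
      Complex.ofReal_re, Complex.ofReal_im]
    nlinarith [sq_nonneg (k 0 * (a 0).re + k 1 * (a 1).re + k 2 * (a 2).re),
      sq_nonneg (k 0 * (a 0).im + k 1 * (a 1).im + k 2 * (a 2).im)]
  exact (sq_le_sq₀ (norm_nonneg _) (by positivity)).1 h

theorem norm_jk (k : E) (a : W) : ‖jk k a‖ ≤ ‖a‖ := by
  unfold jk cu
  rw [norm_smul, norm_smul, Complex.norm_I, one_mul, Complex.norm_real, norm_inv, norm_norm]
  rcases eq_or_ne ‖k‖ 0 with h | h
  · rw [h, inv_zero, zero_mul]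
    exact norm_nonneg _
  · calc ‖k‖⁻¹ * ‖crw (toW k) a‖ ≤ ‖k‖⁻¹ * (‖k‖ * ‖a‖) := by
          gcongr
          exact norm_crw k a
      _ = ‖a‖ := by field_simp

theorem jk_jk {k : E} (hk : k ≠ 0) {a : W} (ha : kd k a = 0) : jk k (jk k a) = a := by
  have h1 : jk k (jk k a) = (((‖k‖⁻¹ : ℝ) : ℂ) ^ 2) • cu k (cu k a) := by
    unfold jk
    rw [cu_csmul, smul_smul, sq]
  have h2 : cu k (cu k a) = ((‖k‖ ^ 2 : ℝ) : ℂ) • a := by
    have e3 := JHV2.hv2_norm_sq k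
    have e4 : (k 0 : ℂ) * a 0 + (k 1 : ℂ) * a 1 + (k 2 : ℂ) * a 2 = 0 := by
      rw [← JH6.x_kd, ha]
    have hI : Complex.I ^ 2 = -1 := Complex.I_sq
    rw [e3]
    refine JHV2.hv2_extW ?_ ?_ ?_
    · simp only [cu, PiLp.smul_apply, smul_eq_mul, JHV2.hv2_crw0, JHV2.hv2_crw1, JHV2.hv2_crw2,
        JHV2.hv2_toW]
      push_cast
      linear_combination ((k 1 : ℂ) * ((k 0 : ℂ) * a 1 - (k 1 : ℂ) * a 0)
        - (k 2 : ℂ) * ((k 2 : ℂ) * a 0 - (k 0 : ℂ) * a 2)) * hI - (k 0 : ℂ) * e4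
    · simp only [cu, PiLp.smul_apply, smul_eq_mul, JHV2.hv2_crw0, JHV2.hv2_crw1, JHV2.hv2_crw2,
        JHV2.hv2_toW]
      push_cast
      linear_combination ((k 2 : ℂ) * ((k 1 : ℂ) * a 2 - (k 2 : ℂ) * a 1)
        - (k 0 : ℂ) * ((k 0 : ℂ) * a 1 - (k 1 : ℂ) * a 0)) * hI - (k 1 : ℂ) * e4
    · simp only [cu, PiLp.smul_apply, smul_eq_mul, JHV2.hv2_crw0, JHV2.hv2_crw1, JHV2.hv2_crw2,
        JHV2.hv2_toW]
      push_cast
      linear_combination ((k 0 : ℂ) * ((k 2 : ℂ) * a 0 - (k 0 : ℂ) * a 2)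
        - (k 1 : ℂ) * ((k 1 : ℂ) * a 2 - (k 2 : ℂ) * a 1)) * hI - (k 2 : ℂ) * e4
  rw [h1, h2, smul_smul]
  have hk' : (‖k‖ : ℂ) ≠ 0 := by exact_mod_cast norm_ne_zero_iff.2 hk
  have : (((‖k‖⁻¹ : ℝ) : ℂ) ^ 2) * ((‖k‖ ^ 2 : ℝ) : ℂ) = 1 := by
    push_cast
    field_simp
  rw [this, one_smul]

theorem jk_cj (k : E) (a : W) : jk (-k) (cj a) = cj (jk k a) := by
  unfold jk
  rw [cu_herm, cj_smul, norm_neg, Complex.conj_ofReal]

theorem cu_neg (k : E) (a : W) : cu (-k) a = -cu k a := by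
  have h := cu_herm k (cj a)
  rw [cj_cj] at h
  rw [h]
  unfold cu
  refine JHV2.hv2_extW ?_ ?_ ?_ <;>
  · simp only [JHV2.hv2_cj, PiLp.smul_apply, PiLp.neg_apply, smul_eq_mul, JHV2.hv2_crw0,
      JHV2.hv2_crw1, JHV2.hv2_crw2, JHV2.hv2_toW, map_mul, map_sub, Complex.conj_I,
      Complex.conj_ofReal, Complex.conj_conj]
    ring

theorem jk_neg (k : E) (a : W) : jk (-k) a = -jk k a := by
  unfold jk
  rw [cu_neg, norm_neg, smul_neg]

theorem dt_jk (k : E) (a b : W) : dt (jk k a) b = dt a (jk (-k) b) := by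
  rw [jk_neg]
  have h1 : dt (jk k a) b = ((‖k‖⁻¹ : ℝ) : ℂ) * dt (cu k a) b := by
    unfold jk
    rw [JH6.x_dt_smul_left]
  have h2 : dt a (-jk k b) = -(((‖k‖⁻¹ : ℝ) : ℂ) * dt a (cu k b)) := by
    unfold jk
    rw [← neg_smul, dt_smul]
    ring
  rw [h1, h2, dt_cu]
  ring

theorem jk_cu (k : E) (a : W) : jk (-k) (cu k a) = -cu k (jk k a) := by
  rw [jk_neg]
  unfold jk
  rw [cu_csmul]

theorem jk_cu' (k : E) (a : W) : jk k (cu k a) = cu k (jk k a) := by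
  unfold jk
  rw [cu_csmul]

theorem jk_smul {r : ℝ} (hr : 0 < r) (k : E) (a : W) : jk (r • k) a = jk k a := by
  unfold jk cu
  rw [JHV2.hv2_toW_smul, norm_smul, Real.norm_eq_abs, abs_of_pos hr]
  have h : crw ((r : ℂ) • toW k) a = (r : ℂ) • crw (toW k) a := by
    refine JHV2.hv2_extW ?_ ?_ ?_ <;>
    · simp only [PiLp.smul_apply, smul_eq_mul, JHV2.hv2_crw0, JHV2.hv2_crw1, JHV2.hv2_crw2]
      ring
  rw [h, smul_comm Complex.I (r : ℂ), smul_smul]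
  congr 1
  have hr' : (r : ℂ) ≠ 0 := by exact_mod_cast hr.ne'
  rw [mul_inv]
  push_cast
  field_simp

theorem jk_rz (θ : ℝ) (k : E) (a : W) : jk (rz θ k) (rzW θ a) = rzW θ (jk k a) := by
  have h : crw (toW (rz θ k)) (rzW θ a) = rzW θ (crw (toW k) a) := by
    have hs : (Real.sin θ : ℂ) ^ 2 + (Real.cos θ : ℂ) ^ 2 = 1 := by
      exact_mod_cast Real.sin_sq_add_cos_sq θ
    refine JHV2.hv2_extW ?_ ?_ ?_
    · simp only [JHV2.hv2_crw0, JHV2.hv2_crw1, JHV2.hv2_crw2, JHV2.hv2_toW, JHV2.hv2_rzW0,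
        JHV2.hv2_rzW1, JHV2.hv2_rzW2, JHV2.hv2_rz0, JHV2.hv2_rz1, JHV2.hv2_rz2]
      push_cast
      ring
    · simp only [JHV2.hv2_crw0, JHV2.hv2_crw1, JHV2.hv2_crw2, JHV2.hv2_toW, JHV2.hv2_rzW0,
        JHV2.hv2_rzW1, JHV2.hv2_rzW2, JHV2.hv2_rz0, JHV2.hv2_rz1, JHV2.hv2_rz2]
      push_cast
      ring
    · simp only [JHV2.hv2_crw0, JHV2.hv2_crw1, JHV2.hv2_crw2, JHV2.hv2_toW, JHV2.hv2_rzW0,
        JHV2.hv2_rzW1, JHV2.hv2_rzW2, JHV2.hv2_rz0, JHV2.hv2_rz1, JHV2.hv2_rz2]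
      push_cast
      push_cast at hs
      linear_combination ((k 0 : ℂ) * a 1 - (k 1 : ℂ) * a 0) * hs
  have hn : ‖rz θ k‖ = ‖k‖ := by
    have h1 : ‖rz θ k‖ ^ 2 = ‖k‖ ^ 2 := by
      rw [JHV2.hv2_norm_sq, JHV2.hv2_norm_sq, JHV2.hv2_rz0, JHV2.hv2_rz1, JHV2.hv2_rz2]
      have := Real.sin_sq_add_cos_sq θ
      linear_combination (k 0 ^ 2 + k 1 ^ 2) * this
    exact (sq_eq_sq₀ (norm_nonneg _) (norm_nonneg _)).1 h1
  unfold jk cu
  rw [h, hn, JHV2.hv2_rzW_smul, JHV2.hv2_rzW_smul]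

theorem norm_mz (k : E) : ‖mz k‖ = ‖k‖ := by
  have h1 : ‖mz k‖ ^ 2 = ‖k‖ ^ 2 := by
    rw [JHV2.hv2_norm_sq, JHV2.hv2_norm_sq]
    simp [mz]
  exact (sq_eq_sq₀ (norm_nonneg _) (norm_nonneg _)).1 h1

theorem mzW_add (a b : W) : mzW (a + b) = mzW a + mzW b := by
  unfold mzW
  ext j
  fin_cases j <;> simp
  ring

theorem mzW_smul (c : ℂ) (a : W) : mzW (c • a) = c • mzW a := by
  unfold mzW
  ext j
  fin_cases j <;> simp

theorem mz_add (p q : E) : mz p + mz q = mz (p + q) := by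
  unfold mz
  ext j
  fin_cases j <;> simp
  ring

theorem mz_mz (k : E) : mz (mz k) = k := by
  unfold mz
  ext j
  fin_cases j <;> simp

theorem mzW_mzW (k : W) : mzW (mzW k) = k := by
  unfold mzW
  ext j
  fin_cases j <;> simp

theorem jk_mz (k : E) (a : W) : jk (mz k) (mzW a) = -mzW (jk k a) := by
  have h : crw (toW (mz k)) (mzW a) = -mzW (crw (toW k) a) := by
    refine JHV2.hv2_extW ?_ ?_ ?_ <;>
    · simp only [PiLp.neg_apply, JHV2.hv2_crw0, JHV2.hv2_crw1, JHV2.hv2_crw2, JHV2.hv2_toW]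
      simp [mz, mzW, JHV2.hv2_crw0, JHV2.hv2_crw1, JHV2.hv2_crw2, JHV2.hv2_toW]
      try ring
  unfold jk cu
  rw [h, norm_mz, mzW_smul, mzW_smul, smul_neg, smul_neg]

theorem meas_cu {X : Type*} [MeasurableSpace X] {f : X → E} {g : X → W} (hf : Measurable f)
    (hg : Measurable g) : Measurable fun x => cu (f x) (g x) := by
  have hj : ∀ j, Continuous fun w : W => w j := fun j =>
    (continuous_apply j).comp (PiLp.continuous_ofLp 2 _)
  have hk : ∀ j, Continuous fun w : E => w j := fun j =>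
    (continuous_apply j).comp (PiLp.continuous_ofLp 2 _)
  have h1 : ∀ j, Measurable fun x => g x j := fun j => (hj j).measurable.comp hg
  have h2 : ∀ j, Measurable fun x => ((f x j : ℝ) : ℂ) := fun j =>
    Complex.measurable_ofReal.comp ((hk j).measurable.comp hf)
  have h3 : Measurable fun x => fun i => cu (f x) (g x) i := by
    refine measurable_pi_lambda _ fun i => ?_
    fin_cases i
    · exact measurable_const.mul (((h2 1).mul (h1 2)).sub ((h2 2).mul (h1 1)))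
    · exact measurable_const.mul (((h2 2).mul (h1 0)).sub ((h2 0).mul (h1 2)))
    · exact measurable_const.mul (((h2 0).mul (h1 1)).sub ((h2 1).mul (h1 0)))
  exact (PiLp.continuous_toLp 2 (fun _ : Fin 3 => ℂ)).measurable.comp h3

theorem meas_jk {X : Type*} [MeasurableSpace X] {f : X → E} {g : X → W} (hf : Measurable f)
    (hg : Measurable g) : Measurable fun x => jk (f x) (g x) := by
  have h1 : Measurable fun x => ((‖f x‖⁻¹ : ℝ) : ℂ) := Complex.measurable_ofReal.comp hf.norm.inv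
  exact h1.smul (meas_cu hf hg)

end H706N
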