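import Pool.Agent.Helper706_AX.J9

/-!
Blow-up with swirl: the solutions.
-/

set_option autoImplicit false

open Set Filter Topology MeasureTheory
open scoped ComplexConjugate ContDiff

namespace H706N

theorem FF_add {g h : E → W} (hg : Adm g) (hh : Adm h) (x : E) : FF (g + h) x = FF g x + FF h x := by
  unfold FF
  rw [← integral_add (FF_int hg x) (FF_int hh x)]
  refine integral_congr_ae (Eventually.of_forall fun k => ?_)
  show Complex.exp _ • (g k + h k) = _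
  rw [smul_add]

theorem vel_add' {g h : E → W} (hg : Adm g) (hh : Adm h) (x : E) :
    vel (g + h) x = vel g x + vel h x := by
  refine JHV2.hv2_extE ?_ ?_ ?_ <;>
  · rw [vel_FF (adm_sum hg hh), FF_add hg hh, PiLp.add_apply, PiLp.add_apply, vel_FF hg, vel_FF hh,
      Complex.add_re]

theorem adm_zero' : Adm (0 : E → W) where
  meas := measurable_const
  dec n := ⟨0, fun k => by simp⟩
  herm k j := by simp
  divf k := by simp [kd]

theorem heat_of_zero (ν t : ℝ) : heat ν t 0 = 0 := by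
  funext k
  unfold heat
  simp

theorem uK_sol (n : ℕ) {η' η κ A ν T D : ℝ} (hη : 0 < η) (hη1 : η < 1) (hle : η ≤ η')
    (hν : 0 ≤ ν) (hκ : κ = (n + 5) * (2 * n + 9) * ν) (hT : 0 < T) (hκT : κ * (2 * T) = 1)
    (hD : ∀ (A : ℝ) (k : E), op (hls (PNn n) η n) (A • prn n η) (A • prn n η) k
      = (-(A ^ 2 * D * ((n + 5) ^ 2 * (2 * n + 9) - (n + 5) * (2 * n + 9) * ‖k‖ - ‖k‖ ^ 2))) •
        prn n η k) {θ : ℝ} (hθ : θ * A * D = ν) {s : E → W} (hs : Adm s)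
    (hr : Between η' η s) :
    Sol ν (op (MK (PNn n) η' η n θ)) T fun t => uJ n η A T t + heat ν t s where
  adm t ht := adm_sum (uJ_adm n hη hη1 hT ht.2) (heat_adm hν ht.1 hs)
  bdd T₁ hT₁ m := by
    obtain ⟨C₁, hC₁⟩ := (uJ_sol n hη hη1 hκ hT hκT hD hθ).bdd T₁ hT₁ m
    obtain ⟨C₂, hC₂⟩ := hs.dec m
    refine ⟨C₁ + C₂, fun t ht k => ?_⟩
    have h1 := hC₁ t ht k
    have h2 := hC₂ k
    have h3 := heat_norm hν ht.1 s k
    have h4 : 0 ≤ (1 + ‖k‖) ^ m := by positivity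
    calc (1 + ‖k‖) ^ m * ‖uJ n η A T t k + heat ν t s k‖
        ≤ (1 + ‖k‖) ^ m * (‖uJ n η A T t k‖ + ‖s k‖) :=
          mul_le_mul_of_nonneg_left ((norm_add_le _ _).trans (add_le_add le_rfl h3)) h4
      _ = (1 + ‖k‖) ^ m * ‖uJ n η A T t k‖ + (1 + ‖k‖) ^ m * ‖s k‖ := by ring
      _ ≤ C₁ + C₂ := add_le_add h1 h2
  cont k t ht :=
    (uK_eqn n hη hη1 hle hν hκ hT hκT hD ht.1 ht.2 hθ hs hr k).continuousAt.continuousWithinAt
  eqn t ht k := uK_eqn n hη hη1 hle hν hκ hT hκT hD ht.1.le ht.2 hθ hs hr k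

theorem circ_add {v w : E → E} (hv : ∀ x, circ v x = 0) {z : E → E} (hz : ∀ x, z x = v x + w x)
    (x : E) : circ z x = circ w x := by
  have h := hv x
  unfold circ at h ⊢
  rw [hz, PiLp.add_apply, PiLp.add_apply]
  linear_combination h

theorem exist_K {ν : ℝ} (hν : 0 < ν) (N : ℕ) {η' η θ : ℝ} (hη : 0 < η) (hη1 : η < 1)
    (hle : η ≤ η') (hθ : 0 < θ) :
    ∃ (T : ℝ) (u : ℝ → E → W),
      Blow (N + 4) ν (op (MK (PNn (2 * (N + 4) + 3)) η' η (2 * (N + 4) + 3) θ)) T u ∧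
      vel (u 0) 0 ≠ 0 ∧ (∀ t ∈ Ico 0 T, SwirlFree (vel (u t))) ∧
      ∀ s, Adm s → Between η' η s →
        Sol ν (op (MK (PNn (2 * (N + 4) + 3)) η' η (2 * (N + 4) + 3) θ)) T
          (fun t => u t + heat ν t s) ∧
        (∀ t ∈ Ico 0 T, ∀ x, vel (u t + heat ν t s) x = vel (u t) x + vel (heat ν t s) x ∧
          circ (vel (u t + heat ν t s)) x = circ (vel (heat ν t s)) x) ∧
        ((∀ φ, rot φ s = s) → ∀ t ∈ Ico 0 T, Axi (vel (u t + heat ν t s))) ∧
        ∀ T' w, Sol ν (op (MK (PNn (2 * (N + 4) + 3)) η' η (2 * (N + 4) + 3) θ)) T' w →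
          w 0 = u 0 + s → T' ≤ T ∧ ∀ t ∈ Ico 0 T', vel (w t) = vel (u t + heat ν t s) := by
  set n : ℕ := 2 * (N + 4) + 3 with hn
  obtain ⟨C, hC⟩ := hls_bdd (pln_N n) hη hη1 n
  have hgood : Good (op (MK (PNn n) η' η n θ)) :=
    good_op (MK_sym (pln_N _) _ hη hη1 _ _) (bdd_plus (nls_bdd (zt_wt _)) (hlj_bdd hC) hθ.le)
  obtain ⟨D, hD, hprof⟩ := op_prof_N n
  have hprof' := fun (A : ℝ) (k : E) => hprof hη hη1 A k
  set κ : ℝ := (n + 5) * (2 * n + 9) * ν with hκ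
  have hκ0 : 0 < κ := by positivity
  set T : ℝ := 1 / (2 * κ) with hT
  have hT0 : 0 < T := by positivity
  have hκT : κ * (2 * T) = 1 := by rw [hT]; field_simp
  set A : ℝ := ν / (θ * D) with hA
  have hA0 : 0 < A := by positivity
  have hθA : θ * A * D = ν := by rw [hA]; field_simp
  have hsolK := fun (s : E → W) (hs : Adm s) (hr : Between η' η s) =>
    uK_sol n hη hη1 hle hν.le hκ hT0 hκT hprof' hθA hs hr
  have hsol : Sol ν (op (MK (PNn n) η' η n θ)) T (uJ n η A T) := by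
    have h := hsolK 0 adm_zero' (fun k hk => absurd rfl hk)
    simpa only [heat_of_zero, add_zero] using h
  have hne : vel (uJ n η A T 0) 0 ≠ 0 := by
    have hx := vel_qrn_ne n hη hη1
    rw [uJ_zero, vel_smul']
    exact smul_ne_zero hA0.ne' hx
  have hblow := blow_mk (N := N) hgood hν.le hT0 hsol ⟨0, hne⟩ (fun r => by
    rw [uJ_zero]
    exact vel_qrn_decay (N + 4) hη hη1 A r) (fun t ht x => uJ_vel n hT0 ht.2 x)
  have hsf : ∀ t ∈ Ico 0 T, SwirlFree (vel (uJ n η A T t)) := fun t ht =>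
    swirlFree_vel (uJ_adm n hη hη1 hT0 ht.2) (fun θ k => uJ_rz n hT0 ht.2 θ k)
      (fun k => uJ_mz n hT0 ht.2 k)
  refine ⟨T, uJ n η A T, hblow, hne, hsf, fun s hs hr => ?_⟩
  have hvel : ∀ t ∈ Ico 0 T, ∀ x, vel (uJ n η A T t + heat ν t s) x
      = vel (uJ n η A T t) x + vel (heat ν t s) x := fun t ht x =>
    vel_add' (uJ_adm n hη hη1 hT0 ht.2) (heat_adm hν.le ht.1 hs) x
  refine ⟨hsolK s hs hr, fun t ht x => ⟨hvel t ht x, circ_add (hsf t ht).2 (hvel t ht) x⟩,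
    fun h1 t ht => ?_, fun T' w hw h0 => ?_⟩
  · have h2 : ∀ θ k, s (rz θ k) = rzW θ (s k) := fun θ k => by
      have h3 := congrFun (h1 θ) (rz θ k)
      unfold rot at h3
      rw [JH5.so5_rz_rz'] at h3
      exact h3.symm
    intro φ x
    refine vel_rz ((hsolK s hs hr).adm t ht) (fun k => ?_) x
    rw [Pi.add_apply, Pi.add_apply, uJ_rz n hT0 ht.2, rzW_add]
    congr 1
    unfold heat
    rw [h2, rz_norm, rzW_rsmul]
  · obtain ⟨C₂, hC₂⟩ := hs.dec 4
    have hb : ∀ M : ℝ, ∃ t ∈ Ico 0 T, ∃ x, M < ‖vel (uJ n η A T t + heat ν t s) x‖ := by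
      intro M
      have hblow' : ∀ M : ℝ, ∃ t ∈ Ico (0 : ℝ) T, ∃ x, M < ‖vel (uJ n η A T t) x‖ := by
        refine blow_form (v := fun t => vel (uJ n η A T t)) (a := 1 / 2) (b := 1 / 2)
          (by norm_num) hT0 (fun t ht x => ?_) ⟨0, hne⟩
        have h1 := one_sub_pos hT0 ht.2
        have : (1 - t / T) ^ (-(1 / 2) : ℝ) = (Real.sqrt (1 - t / T))⁻¹ := by
          rw [Real.rpow_neg h1.le, Real.sqrt_eq_rpow]
        rw [this]
        exact hblow.form t ht x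
      obtain ⟨t, ht, x, hx⟩ := hblow' (M + 3 * (C₂ * ∫ k : E, ((1 + ‖k‖) ^ 4)⁻¹))
      refine ⟨t, ht, x, ?_⟩
      have h4 : ‖vel (heat ν t s) x‖ ≤ 3 * (C₂ * ∫ k : E, ((1 + ‖k‖) ^ 4)⁻¹) :=
        vel_bound (fun k => (mul_le_mul_of_nonneg_left (heat_norm hν.le ht.1 s k)
          (by positivity)).trans (hC₂ k)) x
      rw [hvel t ht x]
      have h5 : ‖vel (uJ n η A T t) x‖ ≤ ‖vel (uJ n η A T t) x + vel (heat ν t s) x‖
          + ‖vel (heat ν t s) x‖ := by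
        have := norm_sub_le (vel (uJ n η A T t) x + vel (heat ν t s) x) (vel (heat ν t s) x)
        rwa [add_sub_cancel_right] at this
      linarith
    refine blow_max hgood hν.le (hsolK s hs hr) hb hw ?_
    rw [h0, heat_zero]

end H706N
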