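import Pool.Agent.Helper706_AX.J10

/-!
Assembly: blow-up of axisymmetric flows with and without swirl for small perturbations.
-/

set_option autoImplicit false

open Set Filter Topology MeasureTheory
open scoped ComplexConjugate ContDiff

namespace H706N

/-- The perturbations are small. -/
theorem op_MK_small {P : ℕ → ℝ → ℝ → ℝ → ℝ} (η' η θ : ℕ → ℝ) (n : ℕ → ℕ) (C : ℕ → ℝ)
    (hP : ∀ i, Sym (hlj (P i) (η i) (n i)) ∧ Bdd (C i) (hlj (P i) (η i) (n i)))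
    (hη : ∀ i, 0 < η' i) (hηt : Tendsto η' atTop (𝓝 0)) (hθ : ∀ i, 0 ≤ θ i)
    (hθt : Tendsto (fun i => θ i * C i) atTop (𝓝 0)) {α β γ : ℝ} (h : α + β + γ = 5 / 2)
    (hα : -(3 / 2) < α) (hα' : α < 3 / 2) (hβ : β < 5 / 2) (hγ : γ < 5 / 2) {δ : ℝ} (hδ : 0 < δ) :
    ∃ i₀, ∀ i ≥ i₀, ∀ f g h, Adm f → Adm g → Adm h →
      |pr (op (MK (P i) (η' i) (η i) (n i) (θ i)) f g) h| ≤ δ * nrm α f * nrm β g * nrm γ h := by
  obtain ⟨c₀, hc₀, hsm⟩ := op_nls_small h hα hα' hβ hγ (half_pos hδ)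
  obtain ⟨K, hK, hest⟩ := op_est h hα hα' hβ hγ
  have e1 : ∀ᶠ i in atTop, η' i < c₀ := hηt.eventually_lt_const hc₀
  have e2 : ∀ᶠ i in atTop, θ i * C i < δ / (2 * (K + 1)) :=
    hθt.eventually_lt_const (by positivity)
  obtain ⟨i₀, hi₀⟩ := eventually_atTop.1 (e1.and e2)
  refine ⟨i₀, fun i hi f g h hf hg hh => ?_⟩
  obtain ⟨h1, h2⟩ := hi₀ i hi
  set N := nrm α f * nrm β g * nrm γ h with hN
  have hN0 : 0 ≤ N := mul_nonneg (mul_nonneg (nrm_nonneg _ _) (nrm_nonneg _ _)) (nrm_nonneg _ _)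
  have a1 := hsm (η' i) ⟨hη i, h1.le⟩ f g h hf hg hh
  have a2 := hest _ _ (hP i).1 (hP i).2 f g h hf hg hh
  have s1 := nls_sym (zt_wt (η' i))
  have b1 := nls_bdd (zt_wt (η' i))
  unfold MK
  rw [op_plus s1 (hP i).1 b1 (hP i).2 (θ i) hf hg,
    pr_add_left (adm_op s1 b1 hf hg) (adm_op (hP i).1 (hP i).2 hf hg) hh]
  have k1 : |pr (op (nls (zt (η' i))) f g) h| ≤ δ / 2 * N := by rw [hN]; linarith [a1]
  have k2 : |pr (op (hlj (P i) (η i) (n i)) f g) h| ≤ K * C i * N := by rw [hN]; linarith [a2]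
  have hθi := hθ i
  calc |pr (op (nls (zt (η' i))) f g) h + θ i * pr (op (hlj (P i) (η i) (n i)) f g) h|
      ≤ |pr (op (nls (zt (η' i))) f g) h| + θ i * |pr (op (hlj (P i) (η i) (n i)) f g) h| := by
        refine (abs_add_le _ _).trans ?_
        rw [abs_mul, abs_of_nonneg hθi]
    _ ≤ δ / 2 * N + θ i * (K * C i * N) := by gcongr
    _ = (δ / 2 + (θ i * C i) * K) * N := by ring
    _ ≤ δ * N := by
        refine mul_le_mul_of_nonneg_right ?_ hN0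
        have : (θ i * C i) * K ≤ δ / 2 := by
          calc (θ i * C i) * K ≤ δ / (2 * (K + 1)) * K := by gcongr
            _ ≤ δ / 2 := by
              rw [div_mul_eq_mul_div, div_le_div_iff₀ (by positivity) (by norm_num)]
              nlinarith [mul_nonneg hδ.le hK]
        linarith
    _ = δ * nrm α f * nrm β g * nrm γ h := by rw [hN]; ring

/-- Small parameters. -/
theorem exist_par' (P : ℕ → ℝ → ℝ → ℝ → ℝ) (hP : ∀ i, Pln (P i)) (n : ℕ → ℕ) (η : ℕ → ℝ)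
    (hη : ∀ i, 0 < η i) (hη1 : ∀ i, η i < 1) :
    ∃ (C θ : ℕ → ℝ), (∀ i, Bdd (C i) (hls (P i) (η i) (n i))) ∧ (∀ i, 0 < θ i) ∧
      Tendsto (fun i => θ i * C i) atTop (𝓝 0) := by
  choose C hC using fun i => hls_bdd (hP i) (hη i) (hη1 i) (n i)
  have hC0 : ∀ i, 0 ≤ C i := fun i => (hC i).1
  have hθ : ∀ i : ℕ, (0 : ℝ) < 1 / ((i + 1) * (C i + 1)) := fun i => by
    have := hC0 i
    positivity
  refine ⟨C, fun i => 1 / ((i + 1) * (C i + 1)), hC, hθ, ?_⟩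
  refine squeeze_zero (fun i => mul_nonneg (hθ i).le (hC0 i)) (fun i => ?_)
    (tendsto_one_div_add_atTop_nhds_zero_nat (𝕜 := ℝ))
  have h1 := hC0 i
  have h2 : (0 : ℝ) < (i : ℝ) + 1 := by positivity
  rw [div_mul_eq_mul_div, one_mul, div_le_div_iff₀ (by positivity) h2]
  nlinarith

theorem pert_K : ∃ M : ℕ → E → E → W → W → W, Pert M ∧
    (∀ i g h, op (M i) (mir g) (mir h) = mir (op (M i) g h)) ∧
    (∀ i ν T u, 0 ≤ ν → Sol ν (op (M i)) T u → (∀ θ, rot θ (u 0) = u 0) → mir (u 0) = u 0 →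
      ∀ t ∈ Ico 0 T, SwirlFree (vel (u t))) ∧
    ∀ (i : ℕ) (ν : ℝ), 0 < ν → ∃ (T : ℝ) (u : ℝ → E → W), Blow (i + 4) ν (op (M i)) T u ∧
      vel (u 0) 0 ≠ 0 ∧ (∀ t ∈ Ico 0 T, SwirlFree (vel (u t))) ∧
      ∀ s, Adm s → Between (1 / (i + 2)) (1 / (i + 3)) s →
        Sol ν (op (M i)) T (fun t => u t + heat ν t s) ∧
        (∀ t ∈ Ico 0 T, ∀ x, vel (u t + heat ν t s) x = vel (u t) x + vel (heat ν t s) x ∧
          circ (vel (u t + heat ν t s)) x = circ (vel (heat ν t s)) x) ∧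
        ((∀ φ, rot φ s = s) → ∀ t ∈ Ico 0 T, Axi (vel (u t + heat ν t s))) ∧
        ∀ T' w, Sol ν (op (M i)) T' w → w 0 = u 0 + s →
          T' ≤ T ∧ ∀ t ∈ Ico 0 T', vel (w t) = vel (u t + heat ν t s) := by
  have hη : ∀ i : ℕ, (0 : ℝ) < 1 / (i + 3) := fun i => by positivity
  have hη1 : ∀ i : ℕ, (1 : ℝ) / (i + 3) < 1 := fun i => by
    rw [div_lt_one (by positivity)]
    have : (0 : ℝ) ≤ i := Nat.cast_nonneg i
    linarith
  have hη' : ∀ i : ℕ, (0 : ℝ) < 1 / (i + 2) := fun i => by positivity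
  have hle : ∀ i : ℕ, (1 : ℝ) / (i + 3) ≤ 1 / (i + 2) := fun i => by
    have : (0 : ℝ) ≤ i := Nat.cast_nonneg i
    exact one_div_le_one_div_of_le (by positivity) (by linarith)
  obtain ⟨C, θ, hC, hθ, hθt⟩ := exist_par' (fun i => PNn (2 * (i + 4) + 3)) (fun i => pln_N _)
    (fun i => 2 * (i + 4) + 3) (fun i => 1 / (i + 3)) hη hη1
  have hsym : ∀ i : ℕ, Sym (MK (PNn (2 * (i + 4) + 3)) (1 / (i + 2)) (1 / (i + 3))
      (2 * (i + 4) + 3) (θ i)) := fun i => MK_sym (pln_N _) _ (hη i) (hη1 i) _ _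
  have hinv : ∀ i : ℕ, InvA (MK (PNn (2 * (i + 4) + 3)) (1 / (i + 2)) (1 / (i + 3))
      (2 * (i + 4) + 3) (θ i)) := fun i => MK_inv (pln_N _) _ _ _ _
  have hbdd : ∀ i : ℕ, Bdd (1 + θ i * C i)
      (MK (PNn (2 * (i + 4) + 3)) (1 / (i + 2)) (1 / (i + 3)) (2 * (i + 4) + 3) (θ i)) :=
    fun i => bdd_plus (nls_bdd (zt_wt _)) (hlj_bdd (hC i)) (hθ i).le
  refine ⟨fun i => MK (PNn (2 * (i + 4) + 3)) (1 / (i + 2)) (1 / (i + 3)) (2 * (i + 4) + 3) (θ i),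
    { sym := fun i => ⟨hsym i, ⟨_, hbdd i⟩⟩
      supp := fun i p q a b h => MK_supp _ (hη i).le (hle i) _ _ p q a b h
      admis := fun i g h hg hh => adm_op (hsym i) (hbdd i) hg hh
      energy := fun i g h hg hh => op_skew (hsym i) (hbdd i) hg hh
      helicity := fun i g hg => op_hel (hsym i) (hbdd i) hg
      transl := fun i g h a => op_tr (hsym i) g h a
      dilat := fun i g h r hr k => op_dilA (hsym i) (hinv i) g h hr k
      rotat := fun i g h φ => op_rotA (hinv i) g h φ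
      small := ?_
      cls := fun i ν T u hu => sol_cls (good_op (hsym i) (hbdd i)) hu
      axi := fun i ν T u hν hu h0 t ht => sol_axi (good_op (hsym i) (hbdd i))
        (fun φ g => op_rotA (hinv i) g g φ) hν hu h0 ht },
    fun i g h => op_mirA (hinv i) g h, fun i ν T u hν hu h0 h0' t ht =>
      sol_swirlFree (good_op (hsym i) (hbdd i)) (fun φ g => op_rotA (hinv i) g g φ)
        (fun g => op_mirA (hinv i) g g) hν hu h0 h0' ht,
    fun i ν hν => exist_K hν i (hη i) (hη1 i) (hle i) (hθ i)⟩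
  intro α β γ δ h hα hα' hβ hγ hδ
  have key := op_MK_small (P := fun i => PNn (2 * (i + 4) + 3)) (fun i : ℕ => (1 : ℝ) / (i + 2))
    (fun i : ℕ => (1 : ℝ) / (i + 3)) θ (fun i => 2 * (i + 4) + 3) C
    (fun i => ⟨hlj_sym (pln_N _) (hη i) (hη1 i) _, hlj_bdd (hC i)⟩) hη' eta_lim
    (fun i => (hθ i).le) hθt h hα hα' hβ hγ hδ
  exact key

end H706N
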