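import Pool.Agent.Helper706_AX.J10

/-!
Existence of swirling data.
-/

set_option autoImplicit false

open Set Filter Topology MeasureTheory
open scoped ComplexConjugate ContDiff

namespace H706N

/-- Swirling data. -/
noncomputable def sw (η' η : ℝ) : E → W := (band η)ᶜ.indicator (prn 0 η')

theorem sw_in {η' η : ℝ} {k : E} (h : k ∉ band η) : sw η' η k = prn 0 η' k :=
  Set.indicator_of_mem (s := (band η)ᶜ) h _

theorem sw_out {η' η : ℝ} {k : E} (h : k ∈ band η) : sw η' η k = 0 :=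
  Set.indicator_of_notMem (s := (band η)ᶜ) (fun h' => h' h) _

theorem sw_adm {η' η : ℝ} (hη : 0 < η') (hη1 : η' < 1) : Adm (sw η' η) := by
  have h0 : Adm (prn 0 η') := by
    have h := adm_prn 0 hη hη1 1
    rwa [one_smul] at h
  refine ⟨h0.meas.indicator (JH7.measurableSet_band η).compl, fun n => ?_, fun k j => ?_,
    fun k => ?_⟩
  · obtain ⟨C, hC⟩ := h0.dec n
    refine ⟨C, fun k => le_trans (mul_le_mul_of_nonneg_left ?_ (by positivity)) (hC k)⟩
    exact norm_indicator_le_norm_self _ _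
  · by_cases h : k ∈ band η
    · rw [sw_out h, sw_out ((JH7.mem_band_neg η k).2 h)]
      simp
    · rw [sw_in h, sw_in (fun h' => h ((JH7.mem_band_neg η k).1 h')), h0.herm]
  · by_cases h : k ∈ band η
    · rw [sw_out h]
      simp [kd]
    · rw [sw_in h, h0.divf]

theorem sw_between {η' η : ℝ} (hη : 0 < η') : Between η' η (sw η' η) := by
  intro k hk
  by_cases h : k ∈ band η
  · exact absurd (sw_out h) hk
  · refine ⟨?_, h⟩
    by_contra h'
    apply hk
    rw [sw_in h]
    have := prn_band 0 hη 1 k h'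
    rwa [Pi.smul_apply, one_smul] at this

theorem prn_rz' (n : ℕ) (η θ : ℝ) (k : E) : prn n η (rz θ k) = rzW θ (prn n η k) := by
  unfold prn
  rw [wfn_rz, vt_rz, JHV2.hv2_toW_rz, rzW_smul]

theorem prn_mz' (n : ℕ) (η : ℝ) (k : E) : prn n η (mz k) = -mzW (prn n η k) := by
  unfold prn
  rw [wfn_mz, vt_mz, JHV2.hv2_toW_neg, toW_mz, mzW_smul, smul_neg]

theorem mzW_zero : mzW 0 = 0 := by
  have := mzW_smul 0 0
  simpa using this

theorem rzW_zero (θ : ℝ) : rzW θ 0 = 0 := by
  have := rzW_smul θ 0 0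
  simpa using this

theorem sw_rz (η' η θ : ℝ) (k : E) : sw η' η (rz θ k) = rzW θ (sw η' η k) := by
  by_cases h : k ∈ band η
  · rw [sw_out h, sw_out ((JH7.mem_band_rz η θ k).2 h), rzW_zero]
  · rw [sw_in h, sw_in (fun h' => h ((JH7.mem_band_rz η θ k).1 h')), prn_rz']

theorem sw_mz (η' η : ℝ) (k : E) : sw η' η (mz k) = -mzW (sw η' η k) := by
  by_cases h : k ∈ band η
  · rw [sw_out h, sw_out ((band_mz η k).2 h), mzW_zero, neg_zero]
  · rw [sw_in h, sw_in (fun h' => h ((band_mz η k).1 h')), prn_mz']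

theorem sw_rot (η' η θ : ℝ) : rot θ (sw η' η) = sw η' η := by
  funext k
  unfold rot
  rw [← sw_rz, JH5.so5_rz_rz]

theorem sw_circ {η' η : ℝ} (h0 : 0 ≤ η) (hlt : η < η') (hη1 : η' < 1) :
    ∃ x, circ (vel (sw η' η)) x ≠ 0 := by
  have hη : 0 < η' := h0.trans_lt hlt
  have hadm := sw_adm (η := η) hη hη1
  have hps := pureSwirl_vel hadm (fun θ k => sw_rz η' η θ k) (fun k => sw_mz η' η k)
  by_contra hcon
  push Not at hcon
  have hv1 : ∀ x, vel (sw η' η) x 1 = 0 := by
    intro x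
    have e1 := hcon x
    have e2 := (hps.2 x).1
    unfold circ at e1
    by_cases h : x 0 ^ 2 + x 1 ^ 2 = 0
    · have x0 : x 0 = 0 := by nlinarith [sq_nonneg (x 0), sq_nonneg (x 1)]
      have x1 : x 1 = 0 := by nlinarith [sq_nonneg (x 0), sq_nonneg (x 1)]
      have hx : rz Real.pi x = x := by
        refine JHV2.hv2_extE ?_ ?_ ?_
        · rw [JHV2.hv2_rz0, x0, x1]
          ring
        · rw [JHV2.hv2_rz1, x0, x1]
          ring
        · rw [JHV2.hv2_rz2]
      have h3 := hps.1 Real.pi x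
      rw [hx] at h3
      have h4 := congrArg (fun v : E => v 1) h3
      simp only [JHV2.hv2_rz1, Real.sin_pi, Real.cos_pi] at h4
      linarith
    · have e3 : (x 0 ^ 2 + x 1 ^ 2) * vel (sw η' η) x 1 = 0 := by
        linear_combination x 0 * e1 + x 1 * e2
      exact (mul_eq_zero.1 e3).resolve_left h
  have hW : Wi fun k => sw η' η k 1 := hadm.wi 1
  have hzero : (fun y => (fl (fun k => sw η' η k 1) y).re) = fun _ => (0 : ℝ) := by
    funext y
    have h := hv1 y
    simpa [vel] using h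
  have hpd := fl_pd_re hW 0 0
  rw [hzero] at hpd
  have hpd0 : pd 0 (fun _ : E => (0 : ℝ)) 0 = 0 := by
    simp [pd]
  rw [hpd0] at hpd
  set G : E → ℝ := (band η)ᶜ.indicator fun k =>
    wfn 0 η' k * k 0 ^ 2 * (Real.sqrt (k 0 ^ 2 + k 1 ^ 2))⁻¹ with hG
  have hF : ∀ k : E, Complex.exp (((inner ℝ k (0 : E) : ℝ) : ℂ) * Complex.I) *
      (Complex.I * (k 0 : ℂ) * sw η' η k 1) = ((-(G k) : ℝ) : ℂ) := by
    intro k
    rw [inner_zero_right, Complex.ofReal_zero, zero_mul, Complex.exp_zero, one_mul]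
    by_cases h : k ∈ band η
    · rw [sw_out h, hG, Set.indicator_of_notMem (s := (band η)ᶜ) (fun h' => h' h)]
      simp
    · rw [sw_in h, hG, Set.indicator_of_mem (s := (band η)ᶜ) h]
      have h1 : prn 0 η' k 1 = Complex.I * (wfn 0 η' k : ℂ) * ((vt k 1 : ℝ) : ℂ) := by
        simp [prn, toW]
      have h2 : vt k 1 = (Real.sqrt (k 0 ^ 2 + k 1 ^ 2))⁻¹ * k 0 := by
        simp [vt]
      rw [h1, h2]
      push_cast
      have hI : Complex.I * Complex.I = -1 := Complex.I_mul_I
      linear_combination (((wfn 0 η' k : ℂ) * (k 0 : ℂ) ^ 2 *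
        ((Real.sqrt (k 0 ^ 2 + k 1 ^ 2) : ℝ) : ℂ)⁻¹)) * hI
  have hfl : fl (fun k => Complex.I * (k 0 : ℂ) * sw η' η k 1) 0 =
      ((∫ k : E, -(G k) : ℝ) : ℂ) := by
    unfold fl
    refine (integral_congr_ae (Filter.Eventually.of_forall hF)).trans ?_
    exact integral_ofReal
  rw [hfl, Complex.ofReal_re, integral_neg] at hpd
  have hnn : ∀ k : E, 0 ≤ G k := by
    intro k
    refine Set.indicator_nonneg (fun k _ => ?_) k
    unfold wfn ee
    positivity
  have hint : Integrable G := by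
    have h1 : Integrable fun k : E => Complex.I * (k 0 : ℂ) * sw η' η k 1 := by
      refine (hW.2 1).mono' ?_ ?_
      · refine AEStronglyMeasurable.mul ?_ hW.1
        have hc : Continuous fun k : E => Complex.I * ((k 0 : ℝ) : ℂ) := by fun_prop
        exact hc.aestronglyMeasurable
      · refine Filter.Eventually.of_forall fun k => ?_
        rw [norm_mul, norm_mul, Complex.norm_I, one_mul, pow_one, Complex.norm_real]
        exact mul_le_mul_of_nonneg_right (PiLp.norm_apply_le k 0) (norm_nonneg _)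
    have h2 := h1.re.neg
    refine h2.congr (Filter.Eventually.of_forall fun k => ?_)
    have h3 := hF k
    rw [inner_zero_right, Complex.ofReal_zero, zero_mul, Complex.exp_zero, one_mul] at h3
    show -(RCLike.re (Complex.I * (k 0 : ℂ) * sw η' η k 1)) = _
    rw [h3]
    rw [RCLike.re_eq_complex_re, Complex.ofReal_re, neg_neg]
  have hpos : 0 < ∫ k : E, G k := by
    rw [integral_pos_iff_support_of_nonneg hnn hint]
    have hopen : IsOpen {k : E | 0 < k 0 ∧ 0 < η' ^ 2 * ‖k‖ ^ 2 - k 2 ^ 2 ∧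
        0 < k 2 ^ 2 - η ^ 2 * ‖k‖ ^ 2} := by
      have c1 : Continuous fun k : E => k 0 := by fun_prop
      have c2 : Continuous fun k : E => η' ^ 2 * ‖k‖ ^ 2 - k 2 ^ 2 := by fun_prop
      have c3 : Continuous fun k : E => k 2 ^ 2 - η ^ 2 * ‖k‖ ^ 2 := by fun_prop
      exact (isOpen_lt continuous_const c1).inter
        ((isOpen_lt continuous_const c2).inter (isOpen_lt continuous_const c3))
    have hne : ({k : E | 0 < k 0 ∧ 0 < η' ^ 2 * ‖k‖ ^ 2 - k 2 ^ 2 ∧
        0 < k 2 ^ 2 - η ^ 2 * ‖k‖ ^ 2}).Nonempty := by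
      set μ : ℝ := (η ^ 2 + η' ^ 2) / 2 with hμ
      have m1 : η ^ 2 < η' ^ 2 := by nlinarith
      have m2 : η' ^ 2 < 1 := by nlinarith
      have m3 : 0 ≤ η ^ 2 := sq_nonneg η
      have m4 : 0 < 1 - μ := by rw [hμ]; linarith
      have m5 : 0 ≤ μ := by rw [hμ]; linarith
      set y : E := !₂[Real.sqrt (1 - μ), 0, Real.sqrt μ] with hy
      have y0 : y 0 = Real.sqrt (1 - μ) := rfl
      have y1 : y 1 = 0 := rfl
      have y2 : y 2 = Real.sqrt μ := rfl
      have yn : ‖y‖ ^ 2 = 1 := by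
        rw [JHV2.hv2_norm_sq, y0, y1, y2, Real.sq_sqrt m4.le, Real.sq_sqrt m5]
        ring
      refine ⟨y, ?_, ?_, ?_⟩
      · rw [y0]
        exact Real.sqrt_pos.2 m4
      · rw [yn, y2, Real.sq_sqrt m5, hμ]
        linarith
      · rw [yn, y2, Real.sq_sqrt m5, hμ]
        linarith
    refine lt_of_lt_of_le (hopen.measure_pos volume hne) (measure_mono ?_)
    rintro k ⟨hk0, hk, hk'⟩
    have hk2 : 0 < ‖k‖ := by
      rw [norm_pos_iff]
      rintro rfl
      simp at hk0
    have hb : k ∈ (band η)ᶜ := by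
      intro h'
      have h'' : k 2 ^ 2 ≤ η ^ 2 * ‖k‖ ^ 2 := h'
      linarith
    rw [Function.mem_support, hG, Set.indicator_of_mem hb]
    apply ne_of_gt
    unfold wfn ee
    have h1 : 0 < k 0 ^ 2 + k 1 ^ 2 := by positivity
    positivity
  linarith

end H706N
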