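import Pool.Agent.Helper706_AX.J1
import Pool.Agent.Helper706_NS.H12
import Pool.Agent.Helper706_NS.H7

set_option autoImplicit false

open Set Filter Topology MeasureTheory
open scoped ComplexConjugate ContDiff

namespace H706N

theorem hlj_meas {M : E → E → W → W → W} (hM : Sym M) (g h : E → W) (hg : Measurable g)
    (hh : Measurable h) :
    Measurable fun z : E × E => jk (z.1 + z.2) (M z.1 z.2 (jk z.1 (g z.1)) (jk z.2 (h z.2))) :=
  meas_jk (measurable_fst.add measurable_snd)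
    (hM.meas (fun k => jk k (g k)) (fun k => jk k (h k)) (meas_jk measurable_id hg)
      (meas_jk measurable_id hh))

/-- Conjugation preserves the conservation laws. -/
theorem conj_sym {M : E → E → W → W → W} (hM : Sym M) :
    Sym fun p q a b => jk (p + q) (M p q (jk p a) (jk q b)) where
  lin₁ p q c a a' b := by
    rw [jk_add, jk_csmul, hM.lin₁, jk_add, jk_csmul]
  lin₂ p q c a b b' := by
    rw [jk_add, jk_csmul, hM.lin₂, jk_add, jk_csmul]
  meas g h hg hh := hlj_meas hM g h hg hh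
  herm p q a b := by
    rw [jk_cj, jk_cj, hM.herm, show -p + -q = -(p + q) by abel, jk_cj]
  divf p q a b := kd_jk _ _
  skew p q a b c ha hb hc := by
    have e : -p + (p + q) = q := by abel
    have h1 := hM.skew p q (jk p a) (jk q b) (jk (p + q) c) (kd_jk _ _) (kd_jk _ _) (kd_jk _ _)
    rw [e, jk_cj, dt_jk, jk_cj, h1, dt_jk, jk_cj]
  hel p q a b c ha hb hc := by
    have h1 := hM.hel p q (jk p a) (jk q b) (jk (-(p + q)) c) (kd_jk _ _) (kd_jk _ _)
      (by rw [jk_neg, ← dt_toW, ← neg_one_smul ℂ, dt_smul, dt_toW, kd_jk, mul_zero])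
    have e1 : q + -(p + q) = -p := by abel
    have e2 : -(p + q) + q = -p := by abel
    have e3 : -(p + q) + p = -q := by abel
    have e4 : p + -(p + q) = -q := by abel
    have e5 : q + p = p + q := add_comm q p
    rw [e1, e2, e3, e4, e5, ← jk_add, ← jk_add, ← jk_add, dt_jk, dt_jk, dt_jk, neg_neg, neg_neg,
      jk_cu', jk_cu', jk_cu']
    exact h1

theorem conj_bdd {M : E → E → W → W → W} {C : ℝ} (hM : Bdd C M) :
    Bdd C fun p q a b => jk (p + q) (M p q (jk p a) (jk q b)) := by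
  refine ⟨hM.1, fun p q a b _ => (norm_jk _ _).trans ?_⟩
  refine (hM.2 p q _ _ (kd_jk p a)).trans ?_
  have h0 : 0 ≤ C * min ‖q‖ ‖p + q‖ := mul_nonneg hM.1 (le_min (norm_nonneg _) (norm_nonneg _))
  refine mul_le_mul_of_nonneg_left ?_ h0
  exact mul_le_mul (norm_jk p a) (norm_jk q b) (norm_nonneg _) (norm_nonneg _)

theorem hlj_sym {P : ℝ → ℝ → ℝ → ℝ} (hP : Pln P) {η : ℝ} (hη : 0 < η) (hη1 : η < 1) (n : ℕ) :
    Sym (hlj P η n) := conj_sym (hls_sym hP hη hη1 n)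

theorem hlj_bdd {P : ℝ → ℝ → ℝ → ℝ} {C : ℝ} {η : ℝ} {n : ℕ} (h : Bdd C (hls P η n)) :
    Bdd C (hlj P η n) := conj_bdd h

theorem jk_zero (k : E) : jk k 0 = 0 := by
  have := jk_csmul k 0 0
  simpa using this

theorem hlj_supp (P : ℝ → ℝ → ℝ → ℝ) (η : ℝ) (n : ℕ) (p q : E) (a b : W)
    (h : p ∉ band η ∨ q ∉ band η ∨ p + q ∉ band η) : hlj P η n p q a b = 0 := by
  unfold hlj
  rw [hls_supp P η n p q _ _ h, jk_zero]

/-! ### The reflection -/

theorem cr_mz (p q : E) : cr (mz p) (mz q) = -mz (cr p q) := by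
  refine JHV2.hv2_extE ?_ ?_ ?_ <;>
  · simp [mz, JHV2.hv2_cr0, JHV2.hv2_cr1, JHV2.hv2_cr2]
    try ring

theorem mz0 (k : E) : mz k 0 = k 0 := rfl
theorem mz1 (k : E) : mz k 1 = -k 1 := rfl
theorem mz2 (k : E) : mz k 2 = k 2 := rfl
theorem mzW0 (k : W) : mzW k 0 = k 0 := rfl
theorem mzW1 (k : W) : mzW k 1 = -k 1 := rfl
theorem mzW2 (k : W) : mzW k 2 = k 2 := rfl

theorem mz_smul (r : ℝ) (k : E) : mz (r • k) = r • mz k := by
  refine JHV2.hv2_extE ?_ ?_ ?_ <;> simp [mz]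

theorem vt_mz (k : E) : vt (mz k) = -mz (vt k) := by
  refine JHV2.hv2_extE ?_ ?_ ?_
  · rw [PiLp.neg_apply, mz0, JHV2.hv2_vt0, JHV2.hv2_vt0, mz0, mz1, neg_sq]
    ring
  · rw [PiLp.neg_apply, mz1, JHV2.hv2_vt1, JHV2.hv2_vt1, mz0, mz1, neg_sq, neg_neg]
  · rw [PiLp.neg_apply, mz2, JHV2.hv2_vt2, JHV2.hv2_vt2, neg_zero]

theorem mz_neg (k : E) : mz (-k) = -mz k := by
  have := mz_smul (-1) k
  simpa using this

theorem vp_mz (k : E) : vp (mz k) = mz (vp k) := by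
  unfold vp
  rw [norm_mz, vt_mz, ← mz_neg, cr_mz, mz_smul]
  have h : cr k (-vt k) = -cr k (vt k) := by
    refine JHV2.hv2_extE ?_ ?_ ?_ <;>
    · simp [JHV2.hv2_cr0, JHV2.hv2_cr1, JHV2.hv2_cr2]
      try ring
  rw [h, mz_neg, neg_neg]

theorem toW_mz (k : E) : toW (mz k) = mzW (toW k) := by
  refine JHV2.hv2_extW ?_ ?_ ?_ <;> simp [mz, mzW, toW]

theorem mzW_neg (k : W) : mzW (-k) = -mzW k := by
  have := mzW_smul (-1) k
  simpa using this

theorem pz_mz (s : Bool) (k : E) : pz s (mz k) = -mzW (pz (!s) k) := by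
  unfold pz
  rw [vt_mz, vp_mz, toW_mz, JHV2.hv2_toW_neg, toW_mz, JH11.sg_not, mzW_add, mzW_smul, mzW_smul]
  push_cast
  module

theorem dt_mzW (a b : W) : dt (mzW a) (mzW b) = dt a b := by
  rw [JH6.x_dt, JH6.x_dt, mzW0, mzW0, mzW1, mzW1, mzW2, mzW2]
  ring

theorem kd_mz (k : E) (a : W) : kd (mz k) (mzW a) = kd k a := by
  rw [← dt_toW, toW_mz, dt_mzW, dt_toW]

theorem lp_mz (k : E) (c : W) : lp (mz k) (mzW c) = mzW (lp k c) := by
  unfold lp
  rw [kd_mz, norm_mz, toW_mz, sub_eq_add_neg, sub_eq_add_neg, mzW_add, mzW_neg, mzW_smul]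

theorem band_mz (η : ℝ) (k : E) : mz k ∈ band η ↔ k ∈ band η := by
  unfold band
  simp only [Set.mem_ofPred_eq, norm_mz, mz2]

theorem zt_mz (η : ℝ) (p q : E) : zt η (mz p) (mz q) = zt η p q := by
  unfold zt
  rw [mz_add, JH7.bi_congr (band_mz η p), JH7.bi_congr (band_mz η q),
    JH7.bi_congr (band_mz η (p + q))]

theorem nlsz_mir (η : ℝ) (p q : E) (a b : W) :
    nls (zt η) (mz p) (mz q) (mzW a) (mzW b) = mzW (nls (zt η) p q a b) := by
  unfold nls
  rw [zt_mz, kd_mz, mz_add, ← mzW_smul, lp_mz]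

theorem ee_mz (η : ℝ) (k : E) : ee η (mz k) = ee η k := by
  unfold ee
  rw [norm_mz, mz2]

theorem mug_mz (F : ℝ → ℝ → ℝ → ℝ) (η : ℝ) (n : ℕ) (p q : E) :
    mug F η n (mz p) (mz q) = mug F η n p q := by
  unfold mug
  rw [mz_add, cr_mz, ee_mz, ee_mz, ee_mz, norm_mz, norm_mz, norm_mz, norm_neg, norm_mz,
    PiLp.neg_apply, PiLp.neg_apply, PiLp.neg_apply, mz0, mz1, mz2, abs_neg, neg_sq, neg_neg]

theorem cj_mzW (a : W) : cj (mzW a) = mzW (cj a) := by
  refine JHV2.hv2_extW ?_ ?_ ?_ <;> simp [mzW, cj]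

theorem cj_neg' (a : W) : cj (-a) = -cj a := by
  have := cj_smul (-1) a
  simpa using this

theorem dt_neg_left' (a b : W) : dt (-a) b = -dt a b := by
  have := JH6.x_dt_smul_left (-1) a b
  simpa using this

theorem hls_mir (P : ℝ → ℝ → ℝ → ℝ) (η : ℝ) (n : ℕ) (p q : E) (a b : W) :
    hls P η n (mz p) (mz q) (mzW a) (mzW b) = -mzW (hls P η n p q a b) := by
  have k : ∀ s₁ s₂ s₃ : Bool, mug (PS P (!s₁) (!s₂) (!s₃)) η n p q = mug (PS P s₁ s₂ s₃) η n p q := by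
    intro s₁ s₂ s₃
    congr 1
    funext a b c
    exact JH11.PS_not P s₁ s₂ s₃ a b c
  have k1 := k true true true
  have k2 := k true true false
  have k3 := k true false true
  have k4 := k true false false
  simp only [Bool.not_true, Bool.not_false] at k1 k2 k3 k4
  unfold hls
  simp only [mz_add, pz_mz, mug_mz, dt_neg_left', dt_mzW, cj_neg', cj_mzW, Fintype.sum_bool,
    Bool.not_true, Bool.not_false, mzW_add, mzW_smul]
  rw [k1, k2, k3, k4]
  module

theorem hlj_inv {P : ℝ → ℝ → ℝ → ℝ} (hP : Pln P) (η : ℝ) (n : ℕ) : InvA (hlj P η n) where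
  hom r hr p q a b := by
    unfold hlj
    rw [← smul_add, jk_smul hr, jk_smul hr, jk_smul hr, (hls_inv hP η n).hom r hr, jk_rsmul]
  rot θ p q a b := by
    unfold hlj
    rw [JH7.rz_add, jk_rz, jk_rz, (hls_inv hP η n).rot, jk_rz]
  mir p q a b := by
    unfold hlj
    rw [mz_add, jk_mz, jk_mz, ← mzW_neg, ← mzW_neg, hls_mir, ← mzW_neg, jk_mz]
    have h1 : hls P η n p q (-jk p a) (-jk q b) = hls P η n p q (jk p a) (jk q b) := by
      rw [← neg_one_smul ℂ (jk p a), ← neg_one_smul ℂ (jk q b)]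
      unfold hls
      simp only [dt_smul, Fintype.sum_bool]
      simp only [neg_one_mul, neg_mul, mul_neg, neg_neg, one_mul]
    rw [h1, ← neg_one_smul ℂ (hls P η n p q _ _), jk_csmul, mzW_smul]
    simp

end H706N
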