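import Pool.Agent.Helper706_AX.J2
import Pool.Agent.Helper706_NS.Main4

set_option autoImplicit false

open Set Filter Topology MeasureTheory
open scoped ComplexConjugate ContDiff

namespace H706N

theorem nlsz_invA (η : ℝ) : InvA (nls (zt η)) :=
  ⟨(nlsz_inv η).hom, (nlsz_inv η).rot, nlsz_mir η⟩

theorem invA_plus {M₁ M₂ : E → E → W → W → W} (h₁ : InvA M₁) (h₂ : InvA M₂) (θ : ℝ) :
    InvA (plus M₁ M₂ θ) where
  hom r hr p q a b := by
    unfold plus
    rw [h₁.hom r hr, h₂.hom r hr, smul_add, smul_comm (θ : ℂ) r]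
  rot φ p q a b := by
    unfold plus
    rw [h₁.rot, h₂.rot, rzW_add, rzW_smul]
  mir p q a b := by
    unfold plus
    rw [h₁.mir, h₂.mir, mzW_add, mzW_smul]

/-- The symbols of the perturbations. -/
noncomputable def MJ (P : ℝ → ℝ → ℝ → ℝ) (η : ℝ) (n : ℕ) (θ : ℝ) : E → E → W → W → W :=
  plus (nls (zt η)) (hlj P η n) θ

theorem MJ_sym {P : ℝ → ℝ → ℝ → ℝ} (hP : Pln P) {η : ℝ} (hη : 0 < η) (hη1 : η < 1) (n : ℕ) (θ : ℝ) :
    Sym (MJ P η n θ) := sym_plus (nls_sym (zt_wt η)) (hlj_sym hP hη hη1 n) θ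

theorem MJ_inv {P : ℝ → ℝ → ℝ → ℝ} (hP : Pln P) (η : ℝ) (n : ℕ) (θ : ℝ) :
    InvA (MJ P η n θ) := invA_plus (nlsz_invA η) (hlj_inv hP η n) θ

theorem MJ_supp (P : ℝ → ℝ → ℝ → ℝ) (η : ℝ) (n : ℕ) (θ : ℝ) (p q : E) (a b : W)
    (h : (p ∉ band η ∧ q ∉ band η) ∨ (p ∉ band η ∧ p + q ∉ band η) ∨ (q ∉ band η ∧ p + q ∉ band η)) :
    MJ P η n θ p q a b = 0 := by
  unfold MJ plus
  rw [hlj_supp P η n p q a b (by tauto)]
  unfold nls
  rw [zt_supp η p q h]
  simp [lp, kd]

/-- The operators commute with dilations. -/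
theorem op_dilA {M : E → E → W → W → W} (hS : Sym M) (hM : InvA M) (g h : E → W) {r : ℝ}
    (hr : 0 < r) (k : E) : op M (dil r g) (dil r h) k = op M g h (r⁻¹ • k) := by
  unfold op
  have key := Measure.integral_comp_smul (volume : Measure E)
    (fun q => M (k - q) q (dil r g (k - q)) (dil r h q)) r
  rw [finrank_euclideanSpace, Fintype.card_fin] at key
  have h3 : |(r ^ 3)⁻¹| = (r ^ 3)⁻¹ := abs_of_pos (by positivity)
  rw [h3] at key
  have h4 : ∫ q, M (k - q) q (dil r g (k - q)) (dil r h q) =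
      (r ^ 3 : ℝ) • ∫ q, M (k - r • q) (r • q) (dil r g (k - r • q)) (dil r h (r • q)) := by
    rw [key, smul_smul, mul_inv_cancel₀ (by positivity), one_smul]
  rw [h4, ← integral_smul]
  congr 1
  funext q
  have h5 : k - r • q = r • (r⁻¹ • k - q) := by
    rw [smul_sub, smul_smul, mul_inv_cancel₀ hr.ne', one_smul]
  rw [h5, hM.hom r hr]
  unfold dil
  rw [smul_smul r⁻¹ r, smul_smul r⁻¹ r, inv_mul_cancel₀ hr.ne', one_smul, one_smul]
  have h6 : ∀ (x : ℝ) (v : W), x • v = (x : ℂ) • v := fun x v => by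
    ext j
    simp
  rw [h6 ((r ^ 2)⁻¹) (g _), h6 ((r ^ 2)⁻¹) (h q), JH5.so5_smul hS, h6 r, h6 (r ^ 3), smul_smul,
    smul_smul]
  have hr' : (r : ℂ) ≠ 0 := by exact_mod_cast hr.ne'
  have h7 : ((r ^ 3 : ℝ) : ℂ) * (r : ℂ) * ((((r ^ 2)⁻¹ : ℝ) : ℂ) * (((r ^ 2)⁻¹ : ℝ) : ℂ)) = 1 := by
    push_cast
    field_simp
  rw [← mul_assoc] at *
  first
    | rw [h7, one_smul]
    | (rw [show (((r ^ 3 : ℝ) : ℂ) * ((r : ℂ) * ((((r ^ 2)⁻¹ : ℝ) : ℂ) * (((r ^ 2)⁻¹ : ℝ) : ℂ)))) = 1 by
        push_cast; field_simp]; rw [one_smul])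

/-- The operators commute with the rotations about the third axis. -/
theorem op_rotA {M : E → E → W → W → W} (hM : InvA M) (g h : E → W) (θ : ℝ) :
    op M (rot θ g) (rot θ h) = rot θ (op M g h) := by
  funext k
  unfold op
  show _ = rzW θ (∫ q, M (rz (-θ) k - q) q (g (rz (-θ) k - q)) (h q))
  rw [← JH5.so5_rzW_int]
  have h1 := (JH5.so5_iso θ).measurePreserving.integral_comp
    (JH5.so5_iso θ).toHomeomorph.measurableEmbedding
    (fun q => M (k - q) q (rot θ g (k - q)) (rot θ h q))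
  rw [← h1]
  congr 1
  funext q
  have h2 : (JH5.so5_iso θ) q = rz θ q := rfl
  have h3 : k - rz θ q = rz θ (rz (-θ) k - q) := by
    rw [JH5.so5_rz_sub, JH5.so5_rz_rz]
  simp only [h2]
  rw [h3]
  unfold rot
  rw [JH5.so5_rz_rz', JH5.so5_rz_rz', hM.rot]

/-- The reflection as an isometry. -/
noncomputable def mzI : E ≃ₗᵢ[ℝ] E where
  toFun := mz
  invFun := mz
  left_inv := mz_mz
  right_inv := mz_mz
  map_add' := fun p q => (mz_add p q).symm
  map_smul' := fun r p => mz_smul r p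
  norm_map' := norm_mz

/-- The reflection of complex vectors. -/
noncomputable def mzWL : W ≃L[ℂ] W :=
  LinearEquiv.toContinuousLinearEquiv
    { toFun := mzW
      invFun := mzW
      left_inv := mzW_mzW
      right_inv := mzW_mzW
      map_add' := mzW_add
      map_smul' := mzW_smul }

theorem mzW_int (f : E → W) : ∫ q, mzW (f q) = mzW (∫ q, f q) :=
  mzWL.integral_comp_comm f

/-- The operators commute with the reflection. -/
theorem op_mirA {M : E → E → W → W → W} (hM : InvA M) (g h : E → W) :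
    op M (mir g) (mir h) = mir (op M g h) := by
  funext k
  unfold op
  show _ = mzW (∫ q, M (mz k - q) q (g (mz k - q)) (h q))
  rw [← mzW_int]
  have h1 := mzI.measurePreserving.integral_comp mzI.toHomeomorph.measurableEmbedding
    (fun q => M (k - q) q (mir g (k - q)) (mir h q))
  rw [← h1]
  congr 1
  funext q
  have h2 : mzI q = mz q := rfl
  have h3 : k - mz q = mz (mz k - q) := by
    rw [sub_eq_add_neg (mz k) q, ← mz_add, mz_mz, mz_neg, sub_eq_add_neg]
  simp only [h2]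
  rw [h3]
  unfold mir
  rw [mz_mz, mz_mz, hM.mir]

/-- Conjugated fields are admissible. -/
theorem adm_jk {g : E → W} (hg : Adm g) : Adm fun k => jk k (g k) where
  meas := meas_jk measurable_id hg.meas
  dec n := by
    obtain ⟨C, hC⟩ := hg.dec n
    exact ⟨C, fun k => (mul_le_mul_of_nonneg_left (norm_jk k (g k)) (by positivity)).trans (hC k)⟩
  herm k j := by
    rw [JH4.g_neg hg, jk_cj]
    rfl
  divf k := kd_jk k _

/-- Conjugated operators. -/
theorem op_conj {M : E → E → W → W → W} {C : ℝ} (hM : Sym M) (hC : Bdd C M) {g : E → W} (hg : Adm g)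
    (h0 : g 0 = 0) (k : E) :
    op (fun p q a b => jk (p + q) (M p q (jk p a) (jk q b))) (fun k => jk k (g k))
      (fun k => jk k (g k)) k = jk k (op M g g k) := by
  have hjj : ∀ k, jk k (jk k (g k)) = g k := by
    intro k
    rcases eq_or_ne k 0 with h | h
    · rw [h, h0, jk_zero, jk_zero]
    · exact jk_jk h (hg.divf k)
  unfold op
  simp only [sub_add_cancel, hjj]
  have h1 := (jkL k).integral_comp_comm (op_int hM hC hg hg k)
  exact h1

end H706N
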