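import Pool.Agent.Helper706_AX.J3

set_option autoImplicit false

open Set Filter Topology MeasureTheory
open scoped ComplexConjugate ContDiff

namespace H706N

theorem qrn_eq (n : ℕ) (η : ℝ) (k : E) : qrn n η k = (-(wfn n η k : ℂ)) • toW (vp k) := by
  unfold qrn prn
  rw [jk_csmul]
  unfold jk cu vp
  rw [JHV2.hv2_crw_toW, JHV2.hv2_toW_smul, smul_smul, smul_smul, smul_smul]
  congr 1
  have hI : Complex.I * Complex.I = -1 := Complex.I_mul_I
  linear_combination ((wfn n η k : ℂ) * ((‖k‖⁻¹ : ℝ) : ℂ)) * hI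

theorem wfn_rz (n : ℕ) (η θ : ℝ) (k : E) : wfn n η (rz θ k) = wfn n η k := by
  unfold wfn
  rw [rz_norm, JH10.mug_ee_rz]

theorem wfn_mz (n : ℕ) (η : ℝ) (k : E) : wfn n η (mz k) = wfn n η k := by
  unfold wfn
  rw [norm_mz, ee_mz]

theorem qrn_rz (n : ℕ) (η θ : ℝ) (k : E) : qrn n η (rz θ k) = rzW θ (qrn n η k) := by
  rw [qrn_eq, qrn_eq, wfn_rz, vp_rz, JHV2.hv2_toW_rz, JHV2.hv2_rzW_smul]

theorem qrn_mz (n : ℕ) (η : ℝ) (k : E) : qrn n η (mz k) = mzW (qrn n η k) := by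
  rw [qrn_eq, qrn_eq, wfn_mz, vp_mz, toW_mz, mzW_smul]

/-- `cu` as a continuous bilinear map. -/
noncomputable def cuB : E →L[ℝ] W →L[ℝ] W :=
  LinearMap.mkContinuous₂
    (LinearMap.mk₂ ℝ (fun (k : E) (a : W) => cu k a)
      (fun k k' a => by
        refine JHV2.hv2_extW ?_ ?_ ?_ <;>
        · simp only [cu, PiLp.smul_apply, PiLp.add_apply, smul_eq_mul, JHV2.hv2_crw0, JHV2.hv2_crw1,
            JHV2.hv2_crw2, JHV2.hv2_toW]
          push_cast
          ring)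
      (fun r k a => by
        refine JHV2.hv2_extW ?_ ?_ ?_ <;>
        · simp only [cu, PiLp.smul_apply, smul_eq_mul, JHV2.hv2_crw0, JHV2.hv2_crw1,
            JHV2.hv2_crw2, JHV2.hv2_toW, Complex.real_smul]
          push_cast
          ring)
      (fun k a b => cu_add k a b)
      (fun r k a => by
        refine JHV2.hv2_extW ?_ ?_ ?_ <;>
        · simp only [cu, PiLp.smul_apply, smul_eq_mul, JHV2.hv2_crw0, JHV2.hv2_crw1,
            JHV2.hv2_crw2, JHV2.hv2_toW, Complex.real_smul]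
          ring)) 2 (fun k a => norm_cu k a)

theorem cuB_apply (k : E) (a : W) : cuB k a = cu k a := rfl

theorem qP_hom (N : ℕ) {η : ℝ} (hη : 0 < η) (hη1 : η < 1) :
    JH19.s9H N (2 * N + 6) (fun k => jk k (JH19.s9P N η k)) where
  smooth := by
    have h0 := (JH19.s9_P_hom N hη hη1).smooth
    have h1 : ContDiffOn ℝ N (fun k : E => ‖k‖⁻¹) {0}ᶜ := by
      refine ContDiffOn.inv ?_ ?_
      · intro x hx
        exact (contDiffAt_norm ℝ hx).contDiffWithinAt
      · intro x hx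
        exact norm_ne_zero_iff.2 hx
    have h2 : ContDiffOn ℝ N (fun k : E => cuB k (JH19.s9P N η k)) {0}ᶜ :=
      cuB.contDiff.contDiffOn.clm_apply h0
    refine (h1.smul h2).congr fun k _ => ?_
    unfold jk
    rw [Complex.coe_smul]
    rfl
  hom := by
    intro r hr k hk
    show jk (r • k) (JH19.s9P N η (r • k)) = _
    rw [(JH19.s9_P_hom N hη hη1).hom r hr k hk, jk_smul hr, jk_rsmul]

theorem qrn_T (N : ℕ) (η : ℝ) :
    qrn (2 * N + 3) η = JH19.s9T (fun k => jk k (JH19.s9P N η k)) := by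
  funext k
  unfold qrn
  rw [JH19.s9_P_prn]
  unfold JH19.s9T
  split_ifs with h
  · rw [jk_zero]
  · rw [jk_rsmul]

theorem qrn_reg (N : ℕ) {η : ℝ} (hη : 0 < η) (hη1 : η < 1) :
    ContDiff ℝ N (qrn (2 * N + 3) η) ∧ ∀ i ≤ N, ∀ r : ℕ, ∃ C : ℝ, ∀ k : E,
      ‖k‖ ^ r * ‖iteratedFDeriv ℝ i (qrn (2 * N + 3) η) k‖ ≤ C := by
  rw [qrn_T]
  have h0 := qP_hom N hη hη1
  have hN : (0 : ℝ) ≤ N := Nat.cast_nonneg N
  refine ⟨(JH19.s9_main N W _ _ (by linarith) h0).1, fun i hi r => ?_⟩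
  have hi' : (i : ℝ) ≤ N := by exact_mod_cast hi
  exact (JH19.s9_main i W (2 * N + 6) _ (by linarith) (JH19.s9_mono hi h0)).2 r

theorem adm_qrn (n : ℕ) {η : ℝ} (hη : 0 < η) (hη1 : η < 1) (A : ℝ) : Adm (A • qrn n η) := by
  have h := adm_jk (adm_prn n hη hη1 A)
  have e : (fun k => jk k ((A • prn n η) k)) = A • qrn n η := by
    funext k
    rw [Pi.smul_apply, jk_rsmul]
    rfl
  rwa [e] at h

theorem vel_qrn_decay (N : ℕ) {η : ℝ} (hη : 0 < η) (hη1 : η < 1) (A : ℝ) (r : ℕ) :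
    ∃ C : ℝ, ∀ x : E, (1 + ‖x‖) ^ N * ‖iteratedFDeriv ℝ r (vel (A • qrn (2 * N + 3) η)) x‖ ≤ C := by
  obtain ⟨h1, h2⟩ := qrn_reg N hη hη1
  obtain ⟨C, hC⟩ := vel_decay N h1 h2 r
  have hsm : ContDiff ℝ ∞ (vel (qrn (2 * N + 3) η)) := by
    have := adm_qrn (2 * N + 3) hη hη1 1
    rw [one_smul] at this
    exact vel_smooth this
  refine ⟨|A| * C, fun x => ?_⟩
  have e : vel (A • qrn (2 * N + 3) η) = A • vel (qrn (2 * N + 3) η) := by
    funext y
    rw [vel_smul', Pi.smul_apply]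
  rw [e, iteratedFDeriv_const_smul_apply ((hsm.of_le (by exact_mod_cast le_top)).contDiffAt),
    norm_smul, Real.norm_eq_abs]
  calc (1 + ‖x‖) ^ N * (|A| * ‖iteratedFDeriv ℝ r (vel (qrn (2 * N + 3) η)) x‖)
      = |A| * ((1 + ‖x‖) ^ N * ‖iteratedFDeriv ℝ r (vel (qrn (2 * N + 3) η)) x‖) := by ring
    _ ≤ |A| * C := by
      gcongr
      exact hC x

theorem vel_qrn_ne (n : ℕ) {η : ℝ} (hη : 0 < η) (hη1 : η < 1) : vel (qrn n η) 0 ≠ 0 := by
  intro hcon
  have hadm : Adm (qrn n η) := by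
    have h := adm_qrn n hη hη1 1
    rwa [one_smul] at h
  have hW : Wi fun k => qrn n η k 2 := hadm.wi 2
  have hzero : (fl (fun k => qrn n η k 2) 0).re = 0 := by
    have h := congrArg (fun v : E => v 2) hcon
    simpa [vel] using h
  set G : E → ℝ := fun k => wfn n η k * (‖k‖⁻¹ *
    ((Real.sqrt (k 0 ^ 2 + k 1 ^ 2))⁻¹ * (k 0 ^ 2 + k 1 ^ 2))) with hG
  have hF : ∀ k : E, Complex.exp (((inner ℝ k (0 : E) : ℝ) : ℂ) * Complex.I) *
      (qrn n η k 2) = ((-(G k) : ℝ) : ℂ) := by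
    intro k
    have h1 : qrn n η k 2 = -(wfn n η k : ℂ) * ((vp k 2 : ℝ) : ℂ) := by
      rw [qrn_eq, PiLp.smul_apply, smul_eq_mul]
      rfl
    have h2 : vp k 2 = ‖k‖⁻¹ * ((Real.sqrt (k 0 ^ 2 + k 1 ^ 2))⁻¹ * (k 0 ^ 2 + k 1 ^ 2)) := by
      unfold vp
      rw [PiLp.smul_apply, smul_eq_mul, JHV2.hv2_cr2, JHV2.hv2_vt0, JHV2.hv2_vt1]
      ring
    rw [h1, h2, inner_zero_right, hG]
    push_cast
    rw [zero_mul, Complex.exp_zero, one_mul]
    ring
  have hfl : fl (fun k => qrn n η k 2) 0 = ((∫ k : E, -(G k) : ℝ) : ℂ) := by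
    unfold fl
    refine (integral_congr_ae (Filter.Eventually.of_forall hF)).trans ?_
    exact integral_ofReal
  rw [hfl, Complex.ofReal_re, integral_neg] at hzero
  have hnn : ∀ k : E, 0 ≤ G k := by
    intro k
    rw [hG]
    unfold wfn ee
    positivity
  have hint : Integrable G := by
    have h1 : Integrable fun k : E => qrn n η k 2 := by
      refine (integrable_norm_iff hW.1).1 ?_
      have := hW.2 0
      simpa using this
    have h2 := h1.re.neg
    refine h2.congr (Filter.Eventually.of_forall fun k => ?_)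
    have h3 := hF k
    rw [inner_zero_right, Complex.ofReal_zero, zero_mul, Complex.exp_zero, one_mul] at h3
    show -(RCLike.re (qrn n η k 2)) = _
    rw [h3]
    rw [RCLike.re_eq_complex_re, Complex.ofReal_re, neg_neg]
  have hpos : 0 < ∫ k : E, G k := by
    rw [integral_pos_iff_support_of_nonneg hnn hint]
    have hopen : IsOpen {k : E | 0 < k 0 ∧ 0 < η ^ 2 * ‖k‖ ^ 2 - k 2 ^ 2} := by
      have c1 : Continuous fun k : E => k 0 := by fun_prop
      have c2 : Continuous fun k : E => η ^ 2 * ‖k‖ ^ 2 - k 2 ^ 2 := by fun_prop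
      exact (isOpen_lt continuous_const c1).inter (isOpen_lt continuous_const c2)
    have hne : ({k : E | 0 < k 0 ∧ 0 < η ^ 2 * ‖k‖ ^ 2 - k 2 ^ 2}).Nonempty := by
      refine ⟨EuclideanSpace.single 0 1, ?_⟩
      simp
      positivity
    refine lt_of_lt_of_le (hopen.measure_pos volume hne) (measure_mono ?_)
    rintro k ⟨hk0, hk⟩
    have hk2 : 0 < ‖k‖ := by
      rw [norm_pos_iff]
      rintro rfl
      simp at hk0
    rw [Function.mem_support, hG]
    apply ne_of_gt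
    unfold wfn ee
    have h1 : 0 < k 0 ^ 2 + k 1 ^ 2 := by positivity
    positivity
  linarith

end H706N
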