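import Pool.Agent.Helper706_AX.J3

set_option autoImplicit false

open Set Filter Topology MeasureTheory
open scoped ComplexConjugate ContDiff

namespace H706N

/-- `∫ g(k) exp(i k·x) dk`. -/
noncomputable def FF (g : E → W) (x : E) : W :=
  ∫ k, Complex.exp (((inner ℝ k x : ℝ) : ℂ) * Complex.I) • g k

theorem FF_int {g : E → W} (hg : Adm g) (x : E) :
    Integrable fun k => Complex.exp (((inner ℝ k x : ℝ) : ℂ) * Complex.I) • g k := by
  have hgi : Integrable g := by
    obtain ⟨C, hC⟩ := hg.dec 4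
    refine (JH1.TD.w_int.const_mul C).mono' hg.meas.aestronglyMeasurable
      (Eventually.of_forall fun k => ?_)
    have h1 := hC k
    have h2 : 0 < (1 + ‖k‖) ^ 4 := by positivity
    rw [← div_eq_mul_inv, le_div_iff₀ h2]
    linarith
  have hc : Continuous fun k : E => Complex.exp (((inner ℝ k x : ℝ) : ℂ) * Complex.I) := by
    fun_prop
  refine (hgi.norm).mono' (hc.aestronglyMeasurable.smul hgi.1) (Eventually.of_forall fun k => ?_)
  rw [norm_smul, Complex.norm_exp_ofReal_mul_I, one_mul]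

theorem vel_FF {g : E → W} (hg : Adm g) (x : E) (i : Fin 3) : vel g x i = (FF g x i).re := by
  have e : vel g x i = (fl (fun k => g k i) x).re := rfl
  rw [e]
  unfold FF fl
  rw [JH1.TD.int_apply (FF_int hg x)]
  rfl

theorem inner_rz (θ : ℝ) (k x : E) : inner ℝ (rz θ k) (rz θ x) = (inner ℝ k x : ℝ) :=
  (JH5.so5_iso θ).inner_map_map k x

theorem inner_mz (k x : E) : inner ℝ (mz k) (mz x) = (inner ℝ k x : ℝ) :=
  mzI.inner_map_map k x

theorem FF_rot {g : E → W} {θ : ℝ} (h : ∀ k, g (rz θ k) = rzW θ (g k)) (x : E) :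
    FF g (rz θ x) = rzW θ (FF g x) := by
  unfold FF
  rw [← JH5.so5_rzW_int]
  have h1 := (JH5.so5_iso θ).measurePreserving.integral_comp
    (JH5.so5_iso θ).toHomeomorph.measurableEmbedding
    (fun k => Complex.exp (((inner ℝ k (rz θ x) : ℝ) : ℂ) * Complex.I) • g k)
  rw [← h1]
  congr 1
  funext k
  have h2 : (JH5.so5_iso θ) k = rz θ k := rfl
  rw [h2, inner_rz, h, rzW_smul]

theorem FF_mir {g : E → W} (h : ∀ k, g (mz k) = mzW (g k)) (x : E) :
    FF g (mz x) = mzW (FF g x) := by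
  unfold FF
  rw [← mzW_int]
  have h1 := mzI.measurePreserving.integral_comp mzI.toHomeomorph.measurableEmbedding
    (fun k => Complex.exp (((inner ℝ k (mz x) : ℝ) : ℂ) * Complex.I) • g k)
  rw [← h1]
  congr 1
  funext k
  have h2 : mzI k = mz k := rfl
  rw [h2, inner_mz, h, mzW_smul]

theorem vel_rz {g : E → W} (hg : Adm g) {θ : ℝ} (h : ∀ k, g (rz θ k) = rzW θ (g k)) (x : E) :
    vel g (rz θ x) = rz θ (vel g x) := by
  refine JHV2.hv2_extE ?_ ?_ ?_
  · rw [vel_FF hg, FF_rot h, JHV2.hv2_rzW0, JHV2.hv2_rz0, vel_FF hg, vel_FF hg, Complex.sub_re,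
      Complex.re_ofReal_mul, Complex.re_ofReal_mul]
  · rw [vel_FF hg, FF_rot h, JHV2.hv2_rzW1, JHV2.hv2_rz1, vel_FF hg, vel_FF hg, Complex.add_re,
      Complex.re_ofReal_mul, Complex.re_ofReal_mul]
  · rw [vel_FF hg, FF_rot h, JHV2.hv2_rzW2, JHV2.hv2_rz2, vel_FF hg]

theorem vel_mz {g : E → W} (hg : Adm g) (h : ∀ k, g (mz k) = mzW (g k)) (x : E) :
    vel g (mz x) = mz (vel g x) := by
  refine JHV2.hv2_extE ?_ ?_ ?_
  · rw [vel_FF hg, FF_mir h, mzW0, mz0, vel_FF hg]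
  · rw [vel_FF hg, FF_mir h, mzW1, mz1, vel_FF hg, Complex.neg_re]
  · rw [vel_FF hg, FF_mir h, mzW2, mz2, vel_FF hg]

theorem swirlFree_vel {g : E → W} (hg : Adm g) (h1 : ∀ θ k, g (rz θ k) = rzW θ (g k))
    (h2 : ∀ k, g (mz k) = mzW (g k)) : SwirlFree (vel g) := by
  refine ⟨fun θ x => vel_rz hg (h1 θ) x, fun x => ?_⟩
  unfold circ
  by_cases hz : (⟨x 0, x 1⟩ : ℂ) = 0
  · have e0 : x 0 = 0 := congrArg Complex.re hz
    have e1 : x 1 = 0 := congrArg Complex.im hz
    rw [e0, e1]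
    ring
  · set z : ℂ := ⟨x 0, x 1⟩ with hzdef
    have hρ : ‖z‖ ≠ 0 := norm_ne_zero_iff.2 hz
    have hc : Real.cos z.arg = x 0 / ‖z‖ := Complex.cos_arg hz
    have hs : Real.sin z.arg = x 1 / ‖z‖ := Complex.sin_arg z
    set y : E := !₂[‖z‖, 0, x 2] with hy
    have y0 : y 0 = ‖z‖ := rfl
    have y1 : y 1 = 0 := rfl
    have y2 : y 2 = x 2 := rfl
    have hxy : x = rz z.arg y := by
      refine JHV2.hv2_extE ?_ ?_ ?_
      · rw [JHV2.hv2_rz0, hc, y0, y1]
        field_simp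
        ring
      · rw [JHV2.hv2_rz1, hs, y0, y1]
        field_simp
        ring
      · rw [JHV2.hv2_rz2, y2]
    have hmy : mz y = y := by
      refine JHV2.hv2_extE ?_ ?_ ?_
      · rw [mz0]
      · rw [mz1, y1, neg_zero]
      · rw [mz2]
    have hv1 : vel g y 1 = 0 := by
      have h3 := vel_mz hg h2 y
      rw [hmy] at h3
      have h4 := congrArg (fun v : E => v 1) h3
      simp only [mz1] at h4
      linarith
    have hv : vel g x = rz z.arg (vel g y) := by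
      conv_lhs => rw [hxy]
      exact vel_rz hg (h1 _) y
    rw [hv, JHV2.hv2_rz0, JHV2.hv2_rz1, hv1, hc, hs]
    field_simp
    ring

theorem FF_mir' {g : E → W} (h : ∀ k, g (mz k) = -mzW (g k)) (x : E) :
    FF g (mz x) = -mzW (FF g x) := by
  unfold FF
  rw [← mzW_int, ← integral_neg]
  have h1 := mzI.measurePreserving.integral_comp mzI.toHomeomorph.measurableEmbedding
    (fun k => Complex.exp (((inner ℝ k (mz x) : ℝ) : ℂ) * Complex.I) • g k)
  rw [← h1]
  congr 1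
  funext k
  have h2 : mzI k = mz k := rfl
  rw [h2, inner_mz, h, mzW_smul, smul_neg]

theorem vel_mz' {g : E → W} (hg : Adm g) (h : ∀ k, g (mz k) = -mzW (g k)) (x : E) :
    vel g (mz x) = -mz (vel g x) := by
  refine JHV2.hv2_extE ?_ ?_ ?_
  · rw [vel_FF hg, FF_mir' h, PiLp.neg_apply, PiLp.neg_apply, mzW0, mz0, vel_FF hg, Complex.neg_re]
  · rw [vel_FF hg, FF_mir' h, PiLp.neg_apply, PiLp.neg_apply, mzW1, mz1, vel_FF hg, neg_neg, neg_neg]
  · rw [vel_FF hg, FF_mir' h, PiLp.neg_apply, PiLp.neg_apply, mzW2, mz2, vel_FF hg, Complex.neg_re]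

theorem pureSwirl_vel {g : E → W} (hg : Adm g) (h1 : ∀ θ k, g (rz θ k) = rzW θ (g k))
    (h2 : ∀ k, g (mz k) = -mzW (g k)) : PureSwirl (vel g) := by
  refine ⟨fun θ x => vel_rz hg (h1 θ) x, fun x => ?_⟩
  set z : ℂ := ⟨x 0, x 1⟩ with hzdef
  have hc : x 0 = ‖z‖ * Real.cos z.arg := by
    rw [Complex.norm_mul_cos_arg]
  have hs : x 1 = ‖z‖ * Real.sin z.arg := by
    rw [Complex.norm_mul_sin_arg]
  set y : E := !₂[‖z‖, 0, x 2] with hy
  have y0 : y 0 = ‖z‖ := rfl
  have y1 : y 1 = 0 := rfl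
  have y2 : y 2 = x 2 := rfl
  have hxy : x = rz z.arg y := by
    refine JHV2.hv2_extE ?_ ?_ ?_
    · rw [JHV2.hv2_rz0, y0, y1]
      linarith
    · rw [JHV2.hv2_rz1, y0, y1]
      linarith
    · rw [JHV2.hv2_rz2, y2]
  have hmy : mz y = y := by
    refine JHV2.hv2_extE ?_ ?_ ?_
    · rw [mz0]
    · rw [mz1, y1, neg_zero]
    · rw [mz2]
  have h3 := vel_mz' hg h2 y
  rw [hmy] at h3
  have hv0 : vel g y 0 = 0 := by
    have h4 := congrArg (fun v : E => v 0) h3
    simp only [PiLp.neg_apply, mz0] at h4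
    linarith
  have hv2 : vel g y 2 = 0 := by
    have h4 := congrArg (fun v : E => v 2) h3
    simp only [PiLp.neg_apply, mz2] at h4
    linarith
  have hv : vel g x = rz z.arg (vel g y) := by
    conv_lhs => rw [hxy]
    exact vel_rz hg (h1 _) y
  rw [hv, JHV2.hv2_rz0, JHV2.hv2_rz1, JHV2.hv2_rz2, hv0, hv2]
  refine ⟨?_, rfl⟩
  linear_combination (-(Real.sin z.arg * vel g y 1)) * hc + (Real.cos z.arg * vel g y 1) * hs

/-- Fourier transforms of axisymmetric fields without swirl. -/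
theorem swirlFree_of_inv {g : E → W} (hg : Adm g) (h1 : ∀ θ, rot θ g = g) (h2 : mir g = g) :
    SwirlFree (vel g) := by
  refine swirlFree_vel hg (fun θ k => ?_) fun k => ?_
  · have h3 := congrFun (h1 θ) (rz θ k)
    unfold rot at h3
    rw [JH5.so5_rz_rz'] at h3
    exact h3.symm
  · have h3 := congrFun h2 (mz k)
    unfold mir at h3
    rw [mz_mz] at h3
    exact h3.symm

end H706N
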