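import Pool.Agent.Helper706_AX.J4
import Pool.Agent.Helper706_AX.J5

set_option autoImplicit false

open Set Filter Topology MeasureTheory
open scoped ComplexConjugate ContDiff

namespace H706N

/-- The Fourier transform of the self-similar solution without swirl. -/
noncomputable def uJ (n : ℕ) (η A T t : ℝ) : E → W := fun k => jk k (uV n η A T t k)

theorem uJ_dil (n : ℕ) (η A : ℝ) {T t : ℝ} (hT : 0 < T) (ht : t < T) :
    uJ n η A T t = dil (lamT T t) (A • qrn n η) := by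
  funext k
  have hl := lamT_pos hT ht
  unfold uJ uV dil
  rw [jk_rsmul, ← jk_smul (inv_pos.2 hl) k, Pi.smul_apply, Pi.smul_apply, jk_rsmul]
  rfl

theorem uJ_zero (n : ℕ) (η A T : ℝ) : uJ n η A T 0 = A • qrn n η := by
  funext k
  unfold uJ
  rw [uV_zero, Pi.smul_apply, jk_rsmul]
  rfl

theorem uJ_adm (n : ℕ) {η A T t : ℝ} (hη : 0 < η) (hη1 : η < 1) (hT : 0 < T) (ht : t < T) :
    Adm (uJ n η A T t) := adm_jk (uV_adm n hη hη1 hT ht)

theorem uJ_band (n : ℕ) {η A T t : ℝ} (hη : 0 < η) (hT : 0 < T) (ht : t < T) (k : E)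
    (hk : k ∉ band η) : uJ n η A T t k = 0 := by
  unfold uJ
  rw [uV_band n hη hT ht k hk, jk_zero]

theorem prn_zero (n : ℕ) (η : ℝ) : prn n η 0 = 0 := by
  unfold prn wfn
  simp

theorem uV_at_zero (n : ℕ) (η A T t : ℝ) : uV n η A T t 0 = 0 := by
  rw [uV_apply, smul_zero, prn_zero, smul_zero]

theorem op_MJ_uJ {P : ℝ → ℝ → ℝ → ℝ} (hP : Pln P) {η θ : ℝ} (hη : 0 < η) (hη1 : η < 1) (n : ℕ)
    {u : E → W} (hu : Adm u) (hb : ∀ k, k ∉ band η → u k = 0) (k : E) :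
    op (MJ P η n θ) u u k = NL u u k + θ • op (hlj P η n) u u k := by
  obtain ⟨C, hC⟩ := hls_bdd hP hη hη1 n
  unfold MJ
  rw [op_plus (nls_sym (zt_wt η)) (hlj_sym hP hη hη1 n) (nls_bdd (zt_wt η)) (hlj_bdd hC) θ hu hu,
    Pi.add_apply, Pi.smul_apply, op_nls_band hu hb]

theorem uJ_eqn (n : ℕ) {η κ A ν T t D : ℝ} (hη : 0 < η) (hη1 : η < 1)
    (hκ : κ = (n + 5) * (2 * n + 9) * ν) (hT : 0 < T) (hκT : κ * (2 * T) = 1)
    (hD : ∀ (A : ℝ) (k : E), op (hls (PNn n) η n) (A • prn n η) (A • prn n η) k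
      = (-(A ^ 2 * D * ((n + 5) ^ 2 * (2 * n + 9) - (n + 5) * (2 * n + 9) * ‖k‖ - ‖k‖ ^ 2))) •
        prn n η k)
    (ht : t < T) {θ : ℝ} (hθ : θ * A * D = ν) (k : E) :
    HasDerivAt (fun s => uJ n η A T s k)
      (-NL (uJ n η A T t) (uJ n η A T t) k - (ν * ‖k‖ ^ 2) • uJ n η A T t k
        + op (MJ (PNn n) η n θ) (uJ n η A T t) (uJ n η A T t) k) t := by
  obtain ⟨C, hC⟩ := hls_bdd (pln_N n) hη hη1 n
  have h1 := uV_eqn n hη hη1 hκ hT hκT hD ht hθ k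
  rw [op_MM_uV (pln_N n) hη hη1 n (uV_adm n hη hη1 hT ht) (fun k hk => uV_band n hη hT ht k hk) k]
    at h1
  have h2 := ((jkL k).restrictScalars ℝ).hasFDerivAt.comp_hasDerivAt t h1
  rw [op_MJ_uJ (pln_N n) hη hη1 n (uJ_adm n hη hη1 hT ht) (fun k hk => uJ_band n hη hT ht k hk) k]
  have h3 : op (hlj (PNn n) η n) (uJ n η A T t) (uJ n η A T t) k
      = jk k (op (hls (PNn n) η n) (uV n η A T t) (uV n η A T t) k) :=
    op_conj (hls_sym (pln_N n) hη hη1 n) hC (uV_adm n hη hη1 hT ht) (uV_at_zero n η A T t) k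
  rw [h3]
  refine h2.congr_deriv ?_
  have e1 : ∀ X Y Z : W, -X - Y + (X + Z) = -Y + Z := by intros; abel
  rw [e1, e1]
  show jk k (-((ν * ‖k‖ ^ 2) • uV n η A T t k) + θ • _) = _
  rw [jk_add, jk_rsmul, ← neg_smul, jk_rsmul, neg_smul]
  rfl

theorem uJ_sol (n : ℕ) {η κ A ν T D : ℝ} (hη : 0 < η) (hη1 : η < 1)
    (hκ : κ = (n + 5) * (2 * n + 9) * ν) (hT : 0 < T) (hκT : κ * (2 * T) = 1)
    (hD : ∀ (A : ℝ) (k : E), op (hls (PNn n) η n) (A • prn n η) (A • prn n η) k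
      = (-(A ^ 2 * D * ((n + 5) ^ 2 * (2 * n + 9) - (n + 5) * (2 * n + 9) * ‖k‖ - ‖k‖ ^ 2))) •
        prn n η k)
    {θ : ℝ} (hθ : θ * A * D = ν) : Sol ν (op (MJ (PNn n) η n θ)) T (uJ n η A T) := by
  have h0 := uV_sol n hη hη1 hκ hT hκT hD hθ
  refine ⟨fun t ht => uJ_adm n hη hη1 hT ht.2, fun T₁ hT₁ m => ?_, fun k t ht => ?_,
    fun t ht k => uJ_eqn n hη hη1 hκ hT hκT hD ht.2 hθ k⟩
  · obtain ⟨C, hC⟩ := h0.bdd T₁ hT₁ m
    exact ⟨C, fun t ht k => (mul_le_mul_of_nonneg_left (norm_jk k _) (by positivity)).trans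
      (hC t ht k)⟩
  · exact (uJ_eqn n hη hη1 hκ hT hκT hD ht.2 hθ k).continuousAt.continuousWithinAt

theorem uJ_vel (n : ℕ) {η A T t : ℝ} (hT : 0 < T) (ht : t < T) (x : E) :
    vel (uJ n η A T t) x
      = (Real.sqrt (1 - t / T))⁻¹ • vel (uJ n η A T 0) ((Real.sqrt (1 - t / T))⁻¹ • x) := by
  rw [uJ_zero, uJ_dil n η A hT ht, vel_dil _ (lamT_pos hT ht)]
  rfl

theorem uJ_rz (n : ℕ) {η A T t : ℝ} (hT : 0 < T) (ht : t < T) (θ : ℝ) (k : E) :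
    uJ n η A T t (rz θ k) = rzW θ (uJ n η A T t k) := by
  have e : ∀ (x : ℝ) (v : W), x • v = (x : ℂ) • v := fun x v => by
    ext j
    simp
  rw [uJ_dil n η A hT ht]
  unfold dil
  rw [Pi.smul_apply, Pi.smul_apply, ← JHV2.hv2_rz_smul, qrn_rz, e, e, e, e, rzW_smul, rzW_smul]

theorem uJ_mz (n : ℕ) {η A T t : ℝ} (hT : 0 < T) (ht : t < T) (k : E) :
    uJ n η A T t (mz k) = mzW (uJ n η A T t k) := by
  have e : ∀ (x : ℝ) (v : W), x • v = (x : ℂ) • v := fun x v => by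
    ext j
    simp
  rw [uJ_dil n η A hT ht]
  unfold dil
  rw [Pi.smul_apply, Pi.smul_apply, ← mz_smul, qrn_mz, e, e, e, e, mzW_smul, mzW_smul]

theorem uV_rz (n : ℕ) (η A T t θ : ℝ) (k : E) :
    uV n η A T t (rz θ k) = rzW θ (uV n η A T t k) := by
  have e : ∀ (x : ℝ) (v : W), x • v = (x : ℂ) • v := fun x v => by
    ext j
    simp
  rw [uV_apply, uV_apply, ← JHV2.hv2_rz_smul, e, e, rzW_smul]
  congr 1
  unfold prn
  rw [wfn_rz, vt_rz, JHV2.hv2_toW_rz, rzW_smul]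

theorem uV_mz (n : ℕ) (η A T t : ℝ) (k : E) :
    uV n η A T t (mz k) = -mzW (uV n η A T t k) := by
  have e : ∀ (x : ℝ) (v : W), x • v = (x : ℂ) • v := fun x v => by
    ext j
    simp
  rw [uV_apply, uV_apply, ← mz_smul, e, e, mzW_smul, ← smul_neg]
  congr 1
  unfold prn
  rw [wfn_mz, vt_mz, JHV2.hv2_toW_neg, toW_mz, mzW_smul, smul_neg]

/-- Self-similar solutions blow up. -/
theorem blow_mk {Bp : (E → W) → (E → W) → E → W} (hB : Good Bp) {ν T : ℝ} (hν : 0 ≤ ν) (hT : 0 < T)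
    {u : ℝ → E → W} (hsol : Sol ν Bp T u) (hne : ∃ x, vel (u 0) x ≠ 0) {N : ℕ}
    (hdec : ∀ r : ℕ, ∃ C, ∀ x, (1 + ‖x‖) ^ (N + 4) * ‖iteratedFDeriv ℝ r (vel (u 0)) x‖ ≤ C)
    (hform : ∀ t ∈ Ico 0 T, ∀ x, vel (u t) x
      = (Real.sqrt (1 - t / T))⁻¹ • vel (u 0) ((Real.sqrt (1 - t / T))⁻¹ • x)) :
    Blow (N + 4) ν Bp T u := by
  have hcont : Continuous (vel (u 0)) := (vel_smooth (hsol.adm 0 ⟨le_rfl, hT⟩)).continuous
  obtain ⟨C₀, hC₀⟩ := hdec 0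
  have hints := int_of_decay' hcont hC₀
  have hblow : ∀ M : ℝ, ∃ t ∈ Ico (0 : ℝ) T, ∃ x, M < ‖vel (u t) x‖ := by
    refine blow_form (v := fun t => vel (u t)) (a := 1 / 2) (b := 1 / 2)
      (by norm_num) hT (fun t ht x => ?_) hne
    have h1 := one_sub_pos hT ht.2
    have : (1 - t / T) ^ (-(1 / 2) : ℝ) = (Real.sqrt (1 - t / T))⁻¹ := by
      rw [Real.rpow_neg h1.le, Real.sqrt_eq_rpow]
    rw [this]
    exact hform t ht x
  refine ⟨hT, hsol, hne, hdec, hints.1, hints.2, hform, fun t ht => ?_, ⟨C₀, fun t ht x => ?_⟩,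
    fun T' w hw h0 => blow_max hB hν hsol hblow hw h0⟩
  · have h2 : ∀ x, ‖vel (u t) x‖ ^ 3 = ‖(Real.sqrt (1 - t / T))⁻¹ •
        vel (u 0) ((Real.sqrt (1 - t / T))⁻¹ • x)‖ ^ 3 := fun x => by
      rw [hform t ht x]
    simp only [h2]
    exact scale_three _ (lamT_pos hT ht.2)
  · have hl := lamT_pos hT ht.2
    unfold lamT at hl
    set l := (Real.sqrt (1 - t / T))⁻¹ with hldef
    have h3 := hC₀ (l • x)
    rw [norm_iteratedFDeriv_zero] at h3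
    rw [hform t ht x, norm_smul, Real.norm_eq_abs, abs_of_pos hl]
    have h4 : ‖x‖ * (l * ‖vel (u 0) (l • x)‖) = ‖l • x‖ * ‖vel (u 0) (l • x)‖ := by
      rw [norm_smul, Real.norm_eq_abs, abs_of_pos hl]
      ring
    rw [h4]
    refine le_trans (mul_le_mul_of_nonneg_right ?_ (norm_nonneg _)) h3
    have h5 : 1 ≤ 1 + ‖l • x‖ := by linarith [norm_nonneg (l • x)]
    calc ‖l • x‖ ≤ 1 + ‖l • x‖ := by linarith
      _ = (1 + ‖l • x‖) ^ 1 := (pow_one _).symm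
      _ ≤ (1 + ‖l • x‖) ^ (N + 4) := pow_le_pow_right₀ h5 (by omega)

theorem exist_J {ν : ℝ} (hν : 0 < ν) (N : ℕ) {η θ : ℝ} (hη : 0 < η) (hη1 : η < 1) (hθ : 0 < θ) :
    ∃ (T : ℝ) (u : ℝ → E → W),
      Blow (N + 4) ν (op (MJ (PNn (2 * (N + 4) + 3)) η (2 * (N + 4) + 3) θ)) T u ∧
      vel (u 0) 0 ≠ 0 ∧ ∀ t ∈ Ico 0 T, SwirlFree (vel (u t)) := by
  set n : ℕ := 2 * (N + 4) + 3 with hn
  obtain ⟨C, hC⟩ := hls_bdd (pln_N n) hη hη1 n
  have hgood : Good (op (MJ (PNn n) η n θ)) :=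
    good_op (MJ_sym (pln_N _) hη hη1 _ _) (bdd_plus (nls_bdd (zt_wt _)) (hlj_bdd hC) hθ.le)
  obtain ⟨D, hD, hprof⟩ := op_prof_N n
  have hprof' := fun (A : ℝ) (k : E) => hprof hη hη1 A k
  set κ : ℝ := (n + 5) * (2 * n + 9) * ν with hκ
  have hκ0 : 0 < κ := by positivity
  set T : ℝ := 1 / (2 * κ) with hT
  have hT0 : 0 < T := by positivity
  have hκT : κ * (2 * T) = 1 := by rw [hT]; field_simp
  set A : ℝ := ν / (θ * D) with hA
  have hA0 : 0 < A := by positivity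
  have hθA : θ * A * D = ν := by rw [hA]; field_simp
  have hsol : Sol ν (op (MJ (PNn n) η n θ)) T (uJ n η A T) :=
    uJ_sol n hη hη1 hκ hT0 hκT hprof' hθA
  have hne : vel (uJ n η A T 0) 0 ≠ 0 := by
    have hx := vel_qrn_ne n hη hη1
    rw [uJ_zero, vel_smul']
    exact smul_ne_zero hA0.ne' hx
  refine ⟨T, uJ n η A T, blow_mk hgood hν.le hT0 hsol ⟨0, hne⟩ (fun r => ?_)
    (fun t ht x => uJ_vel n hT0 ht.2 x), hne, fun t ht => ?_⟩
  · rw [uJ_zero]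
    exact vel_qrn_decay (N + 4) hη hη1 A r
  · exact swirlFree_vel (uJ_adm n hη hη1 hT0 ht.2) (fun θ k => uJ_rz n hT0 ht.2 θ k)
      (fun k => uJ_mz n hT0 ht.2 k)

theorem exist_V {ν : ℝ} (hν : 0 < ν) (N : ℕ) {η θ : ℝ} (hη : 0 < η) (hη1 : η < 1) (hθ : 0 < θ) :
    ∃ (T : ℝ) (u : ℝ → E → W),
      Blow (N + 4) ν (op (MM (PNn (2 * (N + 4) + 3)) η (2 * (N + 4) + 3) θ)) T u ∧
      ∀ t ∈ Ico 0 T, PureSwirl (vel (u t)) ∧
        ∀ x, circ (vel (u t)) x = circ (vel (u 0)) ((Real.sqrt (1 - t / T))⁻¹ • x) := by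
  set n : ℕ := 2 * (N + 4) + 3 with hn
  obtain ⟨C, hC⟩ := hls_bdd (pln_N n) hη hη1 n
  have hgood : Good (op (MM (PNn n) η n θ)) :=
    good_op (MM_sym (pln_N _) hη hη1 _ _) (bdd_plus (nls_bdd (zt_wt _)) hC hθ.le)
  obtain ⟨D, hD, hprof⟩ := op_prof_N n
  have hprof' := fun (A : ℝ) (k : E) => hprof hη hη1 A k
  set κ : ℝ := (n + 5) * (2 * n + 9) * ν with hκ
  have hκ0 : 0 < κ := by positivity
  set T : ℝ := 1 / (2 * κ) with hT
  have hT0 : 0 < T := by positivity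
  have hκT : κ * (2 * T) = 1 := by rw [hT]; field_simp
  set A : ℝ := ν / (θ * D) with hA
  have hA0 : 0 < A := by positivity
  have hθA : θ * A * D = ν := by rw [hA]; field_simp
  have hsol : Sol ν (op (MM (PNn n) η n θ)) T (uV n η A T) :=
    uV_sol n hη hη1 hκ hT0 hκT hprof' hθA
  have hform : ∀ t ∈ Ico (0 : ℝ) T, ∀ x, vel (uV n η A T t) x
      = (Real.sqrt (1 - t / T))⁻¹ • vel (uV n η A T 0) ((Real.sqrt (1 - t / T))⁻¹ • x) :=
    fun t ht x => uV_vel n hT0 ht.2 x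
  have hne : ∃ x, vel (uV n η A T 0) x ≠ 0 := by
    obtain ⟨x, hx⟩ := vel_prn_ne n hη hη1
    refine ⟨x, ?_⟩
    rw [uV_zero, vel_smul']
    exact smul_ne_zero hA0.ne' hx
  refine ⟨T, uV n η A T, blow_mk hgood hν.le hT0 hsol hne (fun r => ?_) hform, fun t ht =>
    ⟨pureSwirl_vel (uV_adm n hη hη1 hT0 ht.2) (fun θ k => uV_rz n η A T t θ k)
      (fun k => uV_mz n η A T t k), fun x => ?_⟩⟩
  · rw [uV_zero]
    exact vel_prn_decay (N + 4) hη hη1 A r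
  · unfold circ
    rw [hform t ht x]
    simp only [PiLp.smul_apply, smul_eq_mul]
    ring

/-- The perturbations are small. -/
theorem op_MJ_small {P : ℕ → ℝ → ℝ → ℝ → ℝ} (η θ : ℕ → ℝ) (n : ℕ → ℕ) (C : ℕ → ℝ)
    (hP : ∀ i, Sym (hlj (P i) (η i) (n i)) ∧ Bdd (C i) (hlj (P i) (η i) (n i)))
    (hη : ∀ i, 0 < η i) (hηt : Tendsto η atTop (𝓝 0)) (hθ : ∀ i, 0 ≤ θ i)
    (hθt : Tendsto (fun i => θ i * C i) atTop (𝓝 0)) {α β γ : ℝ} (h : α + β + γ = 5 / 2)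
    (hα : -(3 / 2) < α) (hα' : α < 3 / 2) (hβ : β < 5 / 2) (hγ : γ < 5 / 2) {δ : ℝ} (hδ : 0 < δ) :
    ∃ i₀, ∀ i ≥ i₀, ∀ f g h, Adm f → Adm g → Adm h →
      |pr (op (MJ (P i) (η i) (n i) (θ i)) f g) h| ≤ δ * nrm α f * nrm β g * nrm γ h := by
  obtain ⟨c₀, hc₀, hsm⟩ := op_nls_small h hα hα' hβ hγ (half_pos hδ)
  obtain ⟨K, hK, hest⟩ := op_est h hα hα' hβ hγ
  have e1 : ∀ᶠ i in atTop, η i < c₀ := hηt.eventually_lt_const hc₀
  have e2 : ∀ᶠ i in atTop, θ i * C i < δ / (2 * (K + 1)) :=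
    hθt.eventually_lt_const (by positivity)
  obtain ⟨i₀, hi₀⟩ := eventually_atTop.1 (e1.and e2)
  refine ⟨i₀, fun i hi f g h hf hg hh => ?_⟩
  obtain ⟨h1, h2⟩ := hi₀ i hi
  set N := nrm α f * nrm β g * nrm γ h with hN
  have hN0 : 0 ≤ N := mul_nonneg (mul_nonneg (nrm_nonneg _ _) (nrm_nonneg _ _)) (nrm_nonneg _ _)
  have a1 := hsm (η i) ⟨hη i, h1.le⟩ f g h hf hg hh
  have a2 := hest _ _ (hP i).1 (hP i).2 f g h hf hg hh
  have s1 := nls_sym (zt_wt (η i))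
  have b1 := nls_bdd (zt_wt (η i))
  unfold MJ
  rw [op_plus s1 (hP i).1 b1 (hP i).2 (θ i) hf hg,
    pr_add_left (adm_op s1 b1 hf hg) (adm_op (hP i).1 (hP i).2 hf hg) hh]
  have k1 : |pr (op (nls (zt (η i))) f g) h| ≤ δ / 2 * N := by rw [hN]; linarith [a1]
  have k2 : |pr (op (hlj (P i) (η i) (n i)) f g) h| ≤ K * C i * N := by rw [hN]; linarith [a2]
  have hθi := hθ i
  calc |pr (op (nls (zt (η i))) f g) h + θ i * pr (op (hlj (P i) (η i) (n i)) f g) h|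
      ≤ |pr (op (nls (zt (η i))) f g) h| + θ i * |pr (op (hlj (P i) (η i) (n i)) f g) h| := by
        refine (abs_add_le _ _).trans ?_
        rw [abs_mul, abs_of_nonneg hθi]
    _ ≤ δ / 2 * N + θ i * (K * C i * N) := by gcongr
    _ = (δ / 2 + (θ i * C i) * K) * N := by ring
    _ ≤ δ * N := by
        refine mul_le_mul_of_nonneg_right ?_ hN0
        have : (θ i * C i) * K ≤ δ / 2 := by
          calc (θ i * C i) * K ≤ δ / (2 * (K + 1)) * K := by gcongr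
            _ ≤ δ / 2 := by
              rw [div_mul_eq_mul_div, div_le_div_iff₀ (by positivity) (by norm_num)]
              nlinarith [mul_nonneg hδ.le hK]
        linarith
    _ = δ * nrm α f * nrm β g * nrm γ h := by rw [hN]; ring

end H706N
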