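import Pool.Agent.Helper706_AX.J8

/-!
Assembly: small perturbations of the Navier-Stokes equations, compatible with axial symmetry, with
self-similar blow-up of axisymmetric solutions without swirl.
-/

set_option autoImplicit false

open Set Filter Topology MeasureTheory
open scoped ComplexConjugate ContDiff

namespace H706N

theorem pert_J : ∃ M : ℕ → E → E → W → W → W, Pert M ∧
    (∀ i g h, op (M i) (mir g) (mir h) = mir (op (M i) g h)) ∧
    (∀ i ν T u, 0 ≤ ν → Sol ν (op (M i)) T u → (∀ θ, rot θ (u 0) = u 0) → mir (u 0) = u 0 →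
      ∀ t ∈ Ico 0 T, SwirlFree (vel (u t))) ∧
    ∀ (i : ℕ) (ν : ℝ), 0 < ν → ∃ (T : ℝ) (u : ℝ → E → W), Blow (i + 4) ν (op (M i)) T u ∧
      vel (u 0) 0 ≠ 0 ∧ ∀ t ∈ Ico 0 T, SwirlFree (vel (u t)) := by
  obtain ⟨C, θ, hC, hθ, hθt⟩ := exist_par (fun i => PNn (2 * (i + 4) + 3)) (fun i => pln_N _)
    (fun i => 2 * (i + 4) + 3)
  have hη : ∀ i : ℕ, (0 : ℝ) < 1 / (i + 2) := fun i => by positivity
  have hη1 : ∀ i : ℕ, (1 : ℝ) / (i + 2) < 1 := fun i => by
    rw [div_lt_one (by positivity)]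
    have : (0 : ℝ) ≤ i := Nat.cast_nonneg i
    linarith
  have hsym : ∀ i : ℕ, Sym (MJ (PNn (2 * (i + 4) + 3)) (1 / (i + 2)) (2 * (i + 4) + 3) (θ i)) :=
    fun i => MJ_sym (pln_N _) (hη i) (hη1 i) _ _
  have hinv : ∀ i : ℕ, InvA (MJ (PNn (2 * (i + 4) + 3)) (1 / (i + 2)) (2 * (i + 4) + 3) (θ i)) :=
    fun i => MJ_inv (pln_N _) _ _ _
  have hbdd : ∀ i : ℕ, Bdd (1 + θ i * C i)
      (MJ (PNn (2 * (i + 4) + 3)) (1 / (i + 2)) (2 * (i + 4) + 3) (θ i)) :=
    fun i => bdd_plus (nls_bdd (zt_wt _)) (hlj_bdd (hC i)) (hθ i).le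
  refine ⟨fun i => MJ (PNn (2 * (i + 4) + 3)) (1 / (i + 2)) (2 * (i + 4) + 3) (θ i),
    { sym := fun i => ⟨hsym i, ⟨_, hbdd i⟩⟩
      supp := fun i p q a b h => MJ_supp _ _ _ _ p q a b h
      admis := fun i g h hg hh => adm_op (hsym i) (hbdd i) hg hh
      energy := fun i g h hg hh => op_skew (hsym i) (hbdd i) hg hh
      helicity := fun i g hg => op_hel (hsym i) (hbdd i) hg
      transl := fun i g h a => op_tr (hsym i) g h a
      dilat := fun i g h r hr k => op_dilA (hsym i) (hinv i) g h hr k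
      rotat := fun i g h φ => op_rotA (hinv i) g h φ
      small := ?_
      cls := fun i ν T u hu => sol_cls (good_op (hsym i) (hbdd i)) hu
      axi := fun i ν T u hν hu h0 t ht => sol_axi (good_op (hsym i) (hbdd i))
        (fun φ g => op_rotA (hinv i) g g φ) hν hu h0 ht },
    fun i g h => op_mirA (hinv i) g h, fun i ν T u hν hu h0 h0' t ht =>
      sol_swirlFree (good_op (hsym i) (hbdd i)) (fun φ g => op_rotA (hinv i) g g φ)
        (fun g => op_mirA (hinv i) g g) hν hu h0 h0' ht,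
    fun i ν hν => exist_J hν i (hη i) (hη1 i) (hθ i)⟩
  intro α β γ δ h hα hα' hβ hγ hδ
  have key := op_MJ_small (P := fun i => PNn (2 * (i + 4) + 3)) (fun i : ℕ => (1 : ℝ) / (i + 2)) θ
    (fun i => 2 * (i + 4) + 3) C
    (fun i => ⟨hlj_sym (pln_N _) (hη i) (hη1 i) _, hlj_bdd (hC i)⟩) hη eta_lim
    (fun i => (hθ i).le) hθt h hα hα' hβ hγ hδ
  exact key

theorem pert_V : ∃ M : ℕ → E → E → W → W → W, Pert M ∧
    (∀ i g h, op (M i) (par g) (par h) = par (op (M i) g h)) ∧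
    ∀ (i : ℕ) (ν : ℝ), 0 < ν → ∃ (T : ℝ) (u : ℝ → E → W), Blow (i + 4) ν (op (M i)) T u ∧
      ∀ t ∈ Ico 0 T, PureSwirl (vel (u t)) ∧
        ∀ x, circ (vel (u t)) x = circ (vel (u 0)) ((Real.sqrt (1 - t / T))⁻¹ • x) := by
  obtain ⟨C, θ, hC, hθ, hθt⟩ := exist_par (fun i => PNn (2 * (i + 4) + 3)) (fun i => pln_N _)
    (fun i => 2 * (i + 4) + 3)
  have hη : ∀ i : ℕ, (0 : ℝ) < 1 / (i + 2) := fun i => by positivity
  have hη1 : ∀ i : ℕ, (1 : ℝ) / (i + 2) < 1 := fun i => by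
    rw [div_lt_one (by positivity)]
    have : (0 : ℝ) ≤ i := Nat.cast_nonneg i
    linarith
  have hsym : ∀ i : ℕ, Sym (MM (PNn (2 * (i + 4) + 3)) (1 / (i + 2)) (2 * (i + 4) + 3) (θ i)) :=
    fun i => MM_sym (pln_N _) (hη i) (hη1 i) _ _
  have hinv : ∀ i : ℕ, Inv (MM (PNn (2 * (i + 4) + 3)) (1 / (i + 2)) (2 * (i + 4) + 3) (θ i)) :=
    fun i => MM_inv (pln_N _) _ _ _
  have hbdd : ∀ i : ℕ, Bdd (1 + θ i * C i)
      (MM (PNn (2 * (i + 4) + 3)) (1 / (i + 2)) (2 * (i + 4) + 3) (θ i)) :=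
    fun i => bdd_plus (nls_bdd (zt_wt _)) (hC i) (hθ i).le
  refine ⟨fun i => MM (PNn (2 * (i + 4) + 3)) (1 / (i + 2)) (2 * (i + 4) + 3) (θ i),
    { sym := fun i => ⟨hsym i, ⟨_, hbdd i⟩⟩
      supp := fun i p q a b h => MM_supp _ _ _ _ p q a b h
      admis := fun i g h hg hh => adm_op (hsym i) (hbdd i) hg hh
      energy := fun i g h hg hh => op_skew (hsym i) (hbdd i) hg hh
      helicity := fun i g hg => op_hel (hsym i) (hbdd i) hg
      transl := fun i g h a => op_tr (hsym i) g h a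
      dilat := fun i g h r hr k => op_dil (hsym i) (hinv i) g h hr k
      rotat := fun i g h φ => op_rot (hinv i) g h φ
      small := ?_
      cls := fun i ν T u hu => sol_cls (good_op (hsym i) (hbdd i)) hu
      axi := fun i ν T u hν hu h0 t ht => sol_axi (good_op (hsym i) (hbdd i))
        (fun φ g => op_rot (hinv i) g g φ) hν hu h0 ht },
    fun i g h => op_par (hsym i) (hinv i) g h,
    fun i ν hν => exist_V hν i (hη i) (hη1 i) (hθ i)⟩
  intro α β γ δ h hα hα' hβ hγ hδ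
  have key := op_MM_small' (P := fun i => PNn (2 * (i + 4) + 3)) (fun i : ℕ => (1 : ℝ) / (i + 2)) θ
    (fun i => 2 * (i + 4) + 3) C (fun i => ⟨hls_sym (pln_N _) (hη i) (hη1 i) _, hC i⟩) hη eta_lim
    (fun i => (hθ i).le) hθt h hα hα' hβ hγ hδ
  exact key

end H706N
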