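import Pool.Agent.Helper706_AX.J6

/-!
Axial symmetry is preserved by the perturbed equations.
-/

set_option autoImplicit false

open Set Filter Topology MeasureTheory
open scoped ComplexConjugate ContDiff

namespace H706N

/-- The constant weight. -/
noncomputable def one' (_ _ : E) : ℝ := 1

theorem one_wt : Wt one' where
  meas := measurable_const
  bd p q := by simp [one']
  swap p q := rfl
  third p q := rfl
  neg p q := rfl

theorem NL_op {g : E → W} (hg : Adm g) : op (nls one') g g = NL g g := by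
  funext k
  have h1 : ∀ q : E, nls one' (k - q) q (g (k - q)) (g q)
      = JH7.lpL k ((Complex.I * kd q (g (k - q))) • g q) := by
    intro q
    rw [JH7.lpL_apply]
    unfold nls one'
    rw [sub_add_cancel]
    simp
  unfold op NL adv
  rw [← JH7.lpL_apply, ← ContinuousLinearMap.integral_comp_comm _ (adv_int hg hg k)]
  exact integral_congr_ae (Eventually.of_forall h1)

theorem one_inv : InvA (nls one') where
  hom := (nls_inv one_wt (fun _ _ _ _ => rfl) (fun _ _ _ => rfl)).hom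
  rot := (nls_inv one_wt (fun _ _ _ _ => rfl) (fun _ _ _ => rfl)).rot
  mir p q a b := by
    unfold nls one'
    rw [kd_mz, mz_add, ← mzW_smul, lp_mz]

theorem adm_rot {g : E → W} (hg : Adm g) (θ : ℝ) : Adm (rot θ g) where
  meas := by
    have h1 : Continuous (rz (-θ)) := (JH5.so5_iso (-θ)).continuous
    have h2 : Continuous (rzW θ) := (JH5.so5_isoW θ).toContinuousLinearEquiv.continuous
    exact h2.measurable.comp (hg.meas.comp h1.measurable)
  dec n := by
    obtain ⟨C, hC⟩ := hg.dec n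
    refine ⟨‖((JH5.so5_isoW θ).toContinuousLinearEquiv : W →L[ℂ] W)‖ * C, fun k => ?_⟩
    have h1 : ‖rot θ g k‖ ≤ ‖((JH5.so5_isoW θ).toContinuousLinearEquiv : W →L[ℂ] W)‖ *
        ‖g (rz (-θ) k)‖ :=
      ((JH5.so5_isoW θ).toContinuousLinearEquiv : W →L[ℂ] W).le_opNorm _
    have h2 := hC (rz (-θ) k)
    rw [rz_norm] at h2
    calc (1 + ‖k‖) ^ n * ‖rot θ g k‖ ≤ (1 + ‖k‖) ^ n *
          (‖((JH5.so5_isoW θ).toContinuousLinearEquiv : W →L[ℂ] W)‖ * ‖g (rz (-θ) k)‖) :=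
          mul_le_mul_of_nonneg_left h1 (by positivity)
      _ = ‖((JH5.so5_isoW θ).toContinuousLinearEquiv : W →L[ℂ] W)‖ *
          ((1 + ‖k‖) ^ n * ‖g (rz (-θ) k)‖) := by ring
      _ ≤ _ := mul_le_mul_of_nonneg_left h2 (norm_nonneg _)
  herm k j := by
    have h1 : rz (-θ) (-k) = -rz (-θ) k := (JH5.so5_iso (-θ)).map_neg k
    have h2 : rot θ g (-k) = cj (rot θ g k) := by
      unfold rot
      rw [h1, JH4.g_neg hg, cj_rzW]
    rw [h2]
    rfl
  divf k := by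
    unfold rot
    have h := kd_rz θ (rz (-θ) k) (g (rz (-θ) k))
    rw [JH5.so5_rz_rz, hg.divf] at h
    exact h

theorem norm_mzW (a : W) : ‖mzW a‖ = ‖a‖ := by
  rw [EuclideanSpace.norm_eq, EuclideanSpace.norm_eq, Fin.sum_univ_three, Fin.sum_univ_three, mzW0,
    mzW1, mzW2, norm_neg]

theorem adm_mir {g : E → W} (hg : Adm g) : Adm (mir g) where
  meas := by
    have h1 : Continuous mz := mzI.continuous
    have h2 : Continuous mzW := mzWL.continuous
    exact h2.measurable.comp (hg.meas.comp h1.measurable)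
  dec n := by
    obtain ⟨C, hC⟩ := hg.dec n
    refine ⟨C, fun k => ?_⟩
    have h2 := hC (mz k)
    rw [norm_mz] at h2
    unfold mir
    rw [norm_mzW]
    exact h2
  herm k j := by
    have h2 : mir g (-k) = cj (mir g k) := by
      unfold mir
      rw [mz_neg, JH4.g_neg hg, cj_mzW]
    rw [h2]
    rfl
  divf k := by
    unfold mir
    have h := kd_mz (mz k) (g (mz k))
    rw [mz_mz, hg.divf] at h
    exact h

/-- The bound on the rotated field. -/
theorem rot_bound (θ : ℝ) (g : E → W) (k : E) :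
    ‖rot θ g k‖ ≤ ‖((JH5.so5_isoW θ).toContinuousLinearEquiv : W →L[ℂ] W)‖ * ‖g (rz (-θ) k)‖ :=
  ((JH5.so5_isoW θ).toContinuousLinearEquiv : W →L[ℂ] W).le_opNorm _

theorem rzW_rsmul (θ c : ℝ) (a : W) : rzW θ (c • a) = c • rzW θ a := by
  have e : ∀ (x : ℝ) (v : W), x • v = (x : ℂ) • v := fun x v => by
    ext j
    simp
  rw [e, e, rzW_smul]

theorem mzW_rsmul (c : ℝ) (a : W) : mzW (c • a) = c • mzW a := by
  have e : ∀ (x : ℝ) (v : W), x • v = (x : ℂ) • v := fun x v => by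
    ext j
    simp
  rw [e, e, mzW_smul]

theorem rzW_neg' (θ : ℝ) (a : W) : rzW θ (-a) = -rzW θ a := by
  have := rzW_smul θ (-1) a
  simpa using this

/-- Rotated solutions are solutions. -/
theorem sol_rot {Bp : (E → W) → (E → W) → E → W} {ν T : ℝ} {u : ℝ → E → W}
    (hu : Sol ν Bp T u) (θ : ℝ) (hB : ∀ g, Bp (rot θ g) (rot θ g) = rot θ (Bp g g)) :
    Sol ν Bp T fun t => rot θ (u t) where
  adm t ht := adm_rot (hu.adm t ht) θ
  bdd T₁ hT₁ n := by
    obtain ⟨C, hC⟩ := hu.bdd T₁ hT₁ n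
    refine ⟨‖((JH5.so5_isoW θ).toContinuousLinearEquiv : W →L[ℂ] W)‖ * C, fun t ht k => ?_⟩
    have h2 := hC t ht (rz (-θ) k)
    rw [rz_norm] at h2
    calc (1 + ‖k‖) ^ n * ‖rot θ (u t) k‖ ≤ (1 + ‖k‖) ^ n *
          (‖((JH5.so5_isoW θ).toContinuousLinearEquiv : W →L[ℂ] W)‖ * ‖u t (rz (-θ) k)‖) :=
          mul_le_mul_of_nonneg_left (rot_bound θ (u t) k) (by positivity)
      _ = ‖((JH5.so5_isoW θ).toContinuousLinearEquiv : W →L[ℂ] W)‖ *
          ((1 + ‖k‖) ^ n * ‖u t (rz (-θ) k)‖) := by ring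
      _ ≤ _ := mul_le_mul_of_nonneg_left h2 (norm_nonneg _)
  cont k := by
    have h2 : Continuous (rzW θ) := (JH5.so5_isoW θ).toContinuousLinearEquiv.continuous
    exact h2.comp_continuousOn (hu.cont (rz (-θ) k))
  eqn t ht k := by
    have h1 := hu.eqn t ht (rz (-θ) k)
    have h2 := (((JH5.so5_isoW θ).toContinuousLinearEquiv : W →L[ℂ] W).restrictScalars
      ℝ).hasFDerivAt.comp_hasDerivAt t h1
    refine h2.congr_deriv ?_
    have hg := hu.adm t ⟨ht.1.le, ht.2⟩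
    have h3 : NL (rot θ (u t)) (rot θ (u t)) k = rot θ (NL (u t) (u t)) k := by
      rw [← NL_op (adm_rot hg θ), op_rotA one_inv, NL_op hg]
    rw [hB, h3]
    show rzW θ (-NL (u t) (u t) (rz (-θ) k) - (ν * ‖rz (-θ) k‖ ^ 2) • u t (rz (-θ) k)
      + Bp (u t) (u t) (rz (-θ) k)) = -rzW θ (NL (u t) (u t) (rz (-θ) k))
        - (ν * ‖k‖ ^ 2) • rzW θ (u t (rz (-θ) k)) + rzW θ (Bp (u t) (u t) (rz (-θ) k))
    rw [rz_norm, rzW_add, sub_eq_add_neg, rzW_add, rzW_neg', rzW_neg', rzW_rsmul, sub_eq_add_neg]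

/-- Reflected solutions are solutions. -/
theorem sol_mir {Bp : (E → W) → (E → W) → E → W} {ν T : ℝ} {u : ℝ → E → W}
    (hu : Sol ν Bp T u) (hB : ∀ g, Bp (mir g) (mir g) = mir (Bp g g)) :
    Sol ν Bp T fun t => mir (u t) where
  adm t ht := adm_mir (hu.adm t ht)
  bdd T₁ hT₁ n := by
    obtain ⟨C, hC⟩ := hu.bdd T₁ hT₁ n
    refine ⟨C, fun t ht k => ?_⟩
    have h2 := hC t ht (mz k)
    rw [norm_mz] at h2
    unfold mir
    rw [norm_mzW]
    exact h2
  cont k := by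
    have h2 : Continuous mzW := mzWL.continuous
    exact h2.comp_continuousOn (hu.cont (mz k))
  eqn t ht k := by
    have h1 := hu.eqn t ht (mz k)
    have h2 := ((mzWL : W →L[ℂ] W).restrictScalars ℝ).hasFDerivAt.comp_hasDerivAt t h1
    refine h2.congr_deriv ?_
    have hg := hu.adm t ⟨ht.1.le, ht.2⟩
    have h3 : NL (mir (u t)) (mir (u t)) k = mir (NL (u t) (u t)) k := by
      rw [← NL_op (adm_mir hg), op_mirA one_inv, NL_op hg]
    rw [hB, h3]
    show mzW (-NL (u t) (u t) (mz k) - (ν * ‖mz k‖ ^ 2) • u t (mz k)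
      + Bp (u t) (u t) (mz k)) = -mzW (NL (u t) (u t) (mz k))
        - (ν * ‖k‖ ^ 2) • mzW (u t (mz k)) + mzW (Bp (u t) (u t) (mz k))
    rw [norm_mz, mzW_add, sub_eq_add_neg, mzW_add, mzW_neg, mzW_neg, mzW_rsmul, sub_eq_add_neg]

theorem FF_rot' (g : E → W) (θ : ℝ) (x : E) : FF (rot θ g) (rz θ x) = rzW θ (FF g x) := by
  unfold FF
  rw [← JH5.so5_rzW_int]
  have h1 := (JH5.so5_iso θ).measurePreserving.integral_comp
    (JH5.so5_iso θ).toHomeomorph.measurableEmbedding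
    (fun k => Complex.exp (((inner ℝ k (rz θ x) : ℝ) : ℂ) * Complex.I) • rot θ g k)
  rw [← h1]
  congr 1
  funext k
  have h2 : (JH5.so5_iso θ) k = rz θ k := rfl
  rw [h2, inner_rz, rzW_smul]
  unfold rot
  rw [JH5.so5_rz_rz']

theorem FF_mirr (g : E → W) (x : E) : FF (mir g) (mz x) = mzW (FF g x) := by
  unfold FF
  rw [← mzW_int]
  have h1 := mzI.measurePreserving.integral_comp mzI.toHomeomorph.measurableEmbedding
    (fun k => Complex.exp (((inner ℝ k (mz x) : ℝ) : ℂ) * Complex.I) • mir g k)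
  rw [← h1]
  congr 1
  funext k
  have h2 : mzI k = mz k := rfl
  rw [h2, inner_mz, mzW_smul]
  unfold mir
  rw [mz_mz]

/-- `rot θ g` is the Fourier transform of the rotated field. -/
theorem vel_rot {g : E → W} (hg : Adm g) (θ : ℝ) (x : E) :
    vel (rot θ g) (rz θ x) = rz θ (vel g x) := by
  have hr := adm_rot hg θ
  refine JHV2.hv2_extE ?_ ?_ ?_
  · rw [vel_FF hr, FF_rot', JHV2.hv2_rzW0, JHV2.hv2_rz0, vel_FF hg, vel_FF hg, Complex.sub_re,
      Complex.re_ofReal_mul, Complex.re_ofReal_mul]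
  · rw [vel_FF hr, FF_rot', JHV2.hv2_rzW1, JHV2.hv2_rz1, vel_FF hg, vel_FF hg, Complex.add_re,
      Complex.re_ofReal_mul, Complex.re_ofReal_mul]
  · rw [vel_FF hr, FF_rot', JHV2.hv2_rzW2, JHV2.hv2_rz2, vel_FF hg]

/-- `mir g` is the Fourier transform of the reflected field. -/
theorem vel_mir {g : E → W} (hg : Adm g) (x : E) : vel (mir g) (mz x) = mz (vel g x) := by
  have hr := adm_mir hg
  refine JHV2.hv2_extE ?_ ?_ ?_
  · rw [vel_FF hr, FF_mirr, mzW0, mz0, vel_FF hg]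
  · rw [vel_FF hr, FF_mirr, mzW1, mz1, vel_FF hg, Complex.neg_re]
  · rw [vel_FF hr, FF_mirr, mzW2, mz2, vel_FF hg]

/-- Axial symmetry persists. -/
theorem sol_axi {Bp : (E → W) → (E → W) → E → W} (hG : Good Bp)
    (hB : ∀ θ g, Bp (rot θ g) (rot θ g) = rot θ (Bp g g)) {ν T : ℝ} (hν : 0 ≤ ν) {u : ℝ → E → W}
    (hu : Sol ν Bp T u) (h0 : ∀ θ, rot θ (u 0) = u 0) {t : ℝ} (ht : t ∈ Ico 0 T) :
    Axi (vel (u t)) := by
  intro θ x
  have h1 := uniq hG hν hu (sol_rot hu θ (hB θ)) (h0 θ) t (by rwa [min_self])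
  have h2 := vel_congr h1
  rw [← vel_rot (hu.adm t ht) θ x, h2]

theorem sol_mz {Bp : (E → W) → (E → W) → E → W} (hG : Good Bp)
    (hB : ∀ g, Bp (mir g) (mir g) = mir (Bp g g)) {ν T : ℝ} (hν : 0 ≤ ν) {u : ℝ → E → W}
    (hu : Sol ν Bp T u) (h0 : mir (u 0) = u 0) {t : ℝ} (ht : t ∈ Ico 0 T) (x : E) :
    vel (u t) (mz x) = mz (vel (u t) x) := by
  have h1 := uniq hG hν hu (sol_mir hu hB) h0 t (by rwa [min_self])
  have h2 := vel_congr h1
  rw [← vel_mir (hu.adm t ht) x, h2]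

/-- A criterion for the absence of swirl. -/
theorem swirlFree_crit {v : E → E} (h1 : Axi v) (h2 : ∀ x, v (mz x) = mz (v x)) : SwirlFree v := by
  refine ⟨h1, fun x => ?_⟩
  unfold circ
  set z : ℂ := ⟨x 0, x 1⟩ with hzdef
  have hc : x 0 = ‖z‖ * Real.cos z.arg := by
    rw [Complex.norm_mul_cos_arg]
  have hs : x 1 = ‖z‖ * Real.sin z.arg := by
    rw [Complex.norm_mul_sin_arg]
  set y : E := !₂[‖z‖, 0, x 2] with hy
  have y0 : y 0 = ‖z‖ := rfl
  have y1 : y 1 = 0 := rfl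
  have y2 : y 2 = x 2 := rfl
  have hxy : x = rz z.arg y := by
    refine JHV2.hv2_extE ?_ ?_ ?_
    · rw [JHV2.hv2_rz0, y0, y1]
      linarith
    · rw [JHV2.hv2_rz1, y0, y1]
      linarith
    · rw [JHV2.hv2_rz2, y2]
  have hmy : mz y = y := by
    refine JHV2.hv2_extE ?_ ?_ ?_
    · rw [mz0]
    · rw [mz1, y1, neg_zero]
    · rw [mz2]
  have hv1 : v y 1 = 0 := by
    have h3 := h2 y
    rw [hmy] at h3
    have h4 := congrArg (fun v : E => v 1) h3
    simp only [mz1] at h4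
    linarith
  have hv : v x = rz z.arg (v y) := by
    conv_lhs => rw [hxy]
    exact h1 _ y
  rw [hv, JHV2.hv2_rz0, JHV2.hv2_rz1, hv1]
  linear_combination (Real.sin z.arg * v y 0) * hc - (Real.cos z.arg * v y 0) * hs

/-- The absence of swirl persists. -/
theorem sol_swirlFree {Bp : (E → W) → (E → W) → E → W} (hG : Good Bp)
    (hB : ∀ θ g, Bp (rot θ g) (rot θ g) = rot θ (Bp g g))
    (hB' : ∀ g, Bp (mir g) (mir g) = mir (Bp g g)) {ν T : ℝ} (hν : 0 ≤ ν) {u : ℝ → E → W}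
    (hu : Sol ν Bp T u) (h0 : ∀ θ, rot θ (u 0) = u 0) (h0' : mir (u 0) = u 0) {t : ℝ}
    (ht : t ∈ Ico 0 T) : SwirlFree (vel (u t)) :=
  swirlFree_crit (sol_axi hG hB hν hu h0 ht) (sol_mz hG hB' hν hu h0' ht)

end H706N
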