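import Pool.Agent.Helper706_AX.J8

/-!
Blow-up with swirl.
-/

set_option autoImplicit false

open Set Filter Topology MeasureTheory
open scoped ComplexConjugate ContDiff

namespace H706N

/-- The symbols of the perturbations. -/
noncomputable def MK (P : ℝ → ℝ → ℝ → ℝ) (η' η : ℝ) (n : ℕ) (θ : ℝ) : E → E → W → W → W :=
  plus (nls (zt η')) (hlj P η n) θ

theorem MK_sym {P : ℝ → ℝ → ℝ → ℝ} (hP : Pln P) (η' : ℝ) {η : ℝ} (hη : 0 < η) (hη1 : η < 1) (n : ℕ)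
    (θ : ℝ) : Sym (MK P η' η n θ) := sym_plus (nls_sym (zt_wt η')) (hlj_sym hP hη hη1 n) θ

theorem MK_inv {P : ℝ → ℝ → ℝ → ℝ} (hP : Pln P) (η' η : ℝ) (n : ℕ) (θ : ℝ) :
    InvA (MK P η' η n θ) := invA_plus (nlsz_invA η') (hlj_inv hP η n) θ

theorem band_mono {η η' : ℝ} (h0 : 0 ≤ η) (h : η ≤ η') {k : E} (hk : k ∈ band η) : k ∈ band η' := by
  unfold band at hk ⊢
  simp only [Set.mem_ofPred_eq] at hk ⊢
  have h1 : η ^ 2 ≤ η' ^ 2 := pow_le_pow_left₀ h0 h 2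
  nlinarith [sq_nonneg ‖k‖]

theorem MK_supp (P : ℝ → ℝ → ℝ → ℝ) {η' η : ℝ} (h0 : 0 ≤ η) (hle : η ≤ η') (n : ℕ) (θ : ℝ) (p q : E)
    (a b : W)
    (h : (p ∉ band η' ∧ q ∉ band η') ∨ (p ∉ band η' ∧ p + q ∉ band η') ∨
      (q ∉ band η' ∧ p + q ∉ band η')) :
    MK P η' η n θ p q a b = 0 := by
  have hm : ∀ k : E, k ∉ band η' → k ∉ band η := fun k hk hk' => hk (band_mono h0 hle hk')
  unfold MK plus
  rw [hlj_supp P η n p q a b (by
    rcases h with h | h | h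
    · exact Or.inl (hm _ h.1)
    · exact Or.inl (hm _ h.1)
    · exact Or.inr (Or.inl (hm _ h.1)))]
  unfold nls
  rw [zt_supp η' p q h]
  simp [lp, kd]

theorem heat_norm {ν t : ℝ} (hν : 0 ≤ ν) (ht : 0 ≤ t) (s : E → W) (k : E) :
    ‖heat ν t s k‖ ≤ ‖s k‖ := by
  unfold heat
  rw [norm_smul, Real.norm_eq_abs, abs_of_pos (Real.exp_pos _)]
  have h1 : Real.exp (-(ν * ‖k‖ ^ 2 * t)) ≤ 1 := Real.exp_le_one_iff.2 (by
    have : 0 ≤ ν * ‖k‖ ^ 2 * t := by positivity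
    linarith)
  calc Real.exp (-(ν * ‖k‖ ^ 2 * t)) * ‖s k‖ ≤ 1 * ‖s k‖ := by gcongr
    _ = ‖s k‖ := one_mul _

theorem heat_zero (ν : ℝ) (s : E → W) : heat ν 0 s = s := by
  funext k
  unfold heat
  simp

theorem heat_adm {ν t : ℝ} (hν : 0 ≤ ν) (ht : 0 ≤ t) {s : E → W} (hs : Adm s) :
    Adm (heat ν t s) where
  meas := by
    have h1 : Measurable fun k : E => Real.exp (-(ν * ‖k‖ ^ 2 * t)) := by
      have : Continuous fun k : E => Real.exp (-(ν * ‖k‖ ^ 2 * t)) := by fun_prop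
      exact this.measurable
    exact h1.smul hs.meas
  dec n := by
    obtain ⟨C, hC⟩ := hs.dec n
    exact ⟨C, fun k => (mul_le_mul_of_nonneg_left (heat_norm hν ht s k) (by positivity)).trans (hC k)⟩
  herm k j := by
    unfold heat
    rw [norm_neg, PiLp.smul_apply, PiLp.smul_apply, hs.herm, Complex.real_smul, Complex.real_smul,
      map_mul, Complex.conj_ofReal]
  divf k := by
    unfold heat
    rw [← Complex.coe_smul, JHV2.hv2_kd_smul, hs.divf, mul_zero]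

theorem adm_sum {g h : E → W} (hg : Adm g) (hh : Adm h) : Adm (g + h) := by
  have := adm_add hg hh 1
  rwa [one_smul] at this

theorem heat_deriv (ν : ℝ) (s : E → W) (k : E) (t : ℝ) :
    HasDerivAt (fun r => heat ν r s k) (-((ν * ‖k‖ ^ 2) • heat ν t s k)) t := by
  unfold heat
  have h1 : HasDerivAt (fun r : ℝ => -(ν * ‖k‖ ^ 2 * r)) (-(ν * ‖k‖ ^ 2)) t := by
    have h := ((hasDerivAt_id t).const_mul (-(ν * ‖k‖ ^ 2)))
    rw [mul_one] at h
    refine h.congr_of_eventuallyEq (Eventually.of_forall fun r => ?_)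
    show -(ν * ‖k‖ ^ 2 * r) = -(ν * ‖k‖ ^ 2) * r
    ring
  have h2 := h1.exp.smul_const (s k)
  refine h2.congr_deriv ?_
  rw [smul_smul, ← neg_smul]
  congr 1
  ring

theorem op_MK {P : ℝ → ℝ → ℝ → ℝ} (hP : Pln P) {η' η θ : ℝ} (hη : 0 < η) (hη1 : η < 1) (n : ℕ)
    {u : E → W} (hu : Adm u) (hb : ∀ k, k ∉ band η' → u k = 0) (k : E) :
    op (MK P η' η n θ) u u k = NL u u k + θ • op (hlj P η n) u u k := by
  obtain ⟨C, hC⟩ := hls_bdd hP hη hη1 n
  unfold MK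
  rw [op_plus (nls_sym (zt_wt η')) (hlj_sym hP hη hη1 n) (nls_bdd (zt_wt η')) (hlj_bdd hC) θ hu hu,
    Pi.add_apply, Pi.smul_apply, op_nls_band hu hb]

theorem hlj_congr (P : ℝ → ℝ → ℝ → ℝ) (η : ℝ) (n : ℕ) {u w : E → W}
    (h : ∀ k ∈ band η, u k = w k) (k : E) : op (hlj P η n) u u k = op (hlj P η n) w w k := by
  refine integral_congr_ae (Eventually.of_forall fun q => ?_)
  show hlj P η n (k - q) q (u (k - q)) (u q) = hlj P η n (k - q) q (w (k - q)) (w q)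
  by_cases h1 : k - q ∈ band η
  · by_cases h2 : q ∈ band η
    · rw [h _ h1, h _ h2]
    · rw [hlj_supp P η n _ _ _ _ (Or.inr (Or.inl h2)), hlj_supp P η n _ _ _ _ (Or.inr (Or.inl h2))]
  · rw [hlj_supp P η n _ _ _ _ (Or.inl h1), hlj_supp P η n _ _ _ _ (Or.inl h1)]

theorem uK_eqn (n : ℕ) {η' η κ A ν T t D : ℝ} (hη : 0 < η) (hη1 : η < 1) (hle : η ≤ η')
    (hν : 0 ≤ ν) (hκ : κ = (n + 5) * (2 * n + 9) * ν) (hT : 0 < T) (hκT : κ * (2 * T) = 1)
    (hD : ∀ (A : ℝ) (k : E), op (hls (PNn n) η n) (A • prn n η) (A • prn n η) k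
      = (-(A ^ 2 * D * ((n + 5) ^ 2 * (2 * n + 9) - (n + 5) * (2 * n + 9) * ‖k‖ - ‖k‖ ^ 2))) •
        prn n η k)
    (ht0 : 0 ≤ t) (ht : t < T) {θ : ℝ} (hθ : θ * A * D = ν) {s : E → W} (hs : Adm s)
    (hr : Between η' η s) (k : E) :
    HasDerivAt (fun r => (uJ n η A T r + heat ν r s) k)
      (-NL (uJ n η A T t + heat ν t s) (uJ n η A T t + heat ν t s) k
        - (ν * ‖k‖ ^ 2) • (uJ n η A T t + heat ν t s) k
        + op (MK (PNn n) η' η n θ) (uJ n η A T t + heat ν t s) (uJ n η A T t + heat ν t s) k) t := by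
  have h1 := uJ_eqn n hη hη1 hκ hT hκT hD ht hθ k
  rw [op_MJ_uJ (pln_N n) hη hη1 n (uJ_adm n hη hη1 hT ht) (fun k hk => uJ_band n hη hT ht k hk) k]
    at h1
  have h2 := h1.add (heat_deriv ν s k t)
  have hadm := adm_sum (uJ_adm n hη hη1 hT ht (A := A)) (heat_adm hν ht0 hs)
  have hz : ∀ k, s k = 0 → heat ν t s k = 0 := fun k hk => by
    unfold heat
    rw [hk, smul_zero]
  have hb : ∀ k, k ∉ band η' → (uJ n η A T t + heat ν t s) k = 0 := by
    intro k hk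
    rw [Pi.add_apply, uJ_band n hη hT ht k (fun h => hk (band_mono hη.le hle h)),
      hz k (by by_contra hne; exact hk (hr k hne).1), add_zero]
  rw [op_MK (pln_N n) hη hη1 n hadm hb k]
  have h3 : op (hlj (PNn n) η n) (uJ n η A T t + heat ν t s) (uJ n η A T t + heat ν t s) k
      = op (hlj (PNn n) η n) (uJ n η A T t) (uJ n η A T t) k := by
    refine hlj_congr _ _ _ (fun k hk => ?_) k
    rw [Pi.add_apply, hz k (by by_contra hne; exact (hr k hne).2 hk), add_zero]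
  rw [h3]
  refine h2.congr_deriv ?_
  have e1 : ∀ X Y Z : W, -X - Y + (X + Z) = -Y + Z := by intros; abel
  rw [e1, e1, Pi.add_apply, smul_add]
  abel

end H706N
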